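import Pool.Agent.R810.LJ.Sharp

/-! Balanced classes, for all numbers of vertices. -/

set_option autoImplicit false
open Finset
open scoped Classical

namespace Pool.Agent.R810.LJ

theorem exists_balanced' (n : ℕ) : ∃ g : Fin n → Fin 3, (turanGraph g).card = tn n := by
  have hw : ∀ i, w (fun x => 2 - res n x) i = w (res n) (2 - i) := by
    intro i
    unfold w
    congr 1
    ext x
    simp only [mem_filter, mem_univ, true_and]
    have : ∀ a b : Fin 3, 2 - a = b ↔ a = 2 - b := by decide
    exact this _ _
  have v0 : w (fun x => 2 - res n x) 0 = n / 3 := by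
    rw [hw, w_res]
    change (n + 2 - 2) / 3 = n / 3
    omega
  have v1 : w (fun x => 2 - res n x) 1 = (n + 1) / 3 := by
    rw [hw, w_res]
    change (n + 2 - 1) / 3 = (n + 1) / 3
    omega
  have v2 : w (fun x => 2 - res n x) 2 = (n + 2) / 3 := by
    rw [hw, w_res]
    change (n + 2 - 0) / 3 = (n + 2) / 3
    omega
  refine ⟨fun x => 2 - res n x, le_antisymm (turan_card_le _) ?_⟩
  have h1 := turan_card_ge (fun x => 2 - res n x)
  rw [v0, v1, v2, ← M6_tn] at h1
  have h3 : (tn n : ℤ) ≤ ((turanGraph fun x => 2 - res n x).card : ℤ) := by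
    unfold tn
    linarith
  exact_mod_cast h3

end Pool.Agent.R810.LJ
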