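import Mathlib

/-!
Edge-colourings in which all triples of a covering 3-graph are monochromatic: if three colours
occur on the triples, they come from Turán's construction.
-/

set_option autoImplicit false
open Finset

namespace Pool.Agent.R810.TC

variable {V κ : Type*}

/-- every four points contain a triple of `E`, and all triples of `E` are monochromatic -/
structure Col (E : V → V → V → Prop) (c : V → V → κ) : Prop where
  four : ∀ a b d e : V, a ≠ b → a ≠ d → a ≠ e → b ≠ d → b ≠ e → d ≠ e →
    E a b d ∨ E a b e ∨ E a d e ∨ E b d e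
  symm : ∀ a b : V, c a b = c b a
  mono : ∀ a b d : V, a ≠ b → a ≠ d → b ≠ d → E a b d → c a b = c a d ∧ c a b = c b d

variable {E : V → V → V → Prop} {c : V → V → κ}

/-- pairwise different colours at a point -/
theorem Col.f1 (h : Col E c) {v x y z : V} (hx : x ≠ v) (hy : y ≠ v) (hz : z ≠ v)
    (h1 : c v x ≠ c v y) (h2 : c v x ≠ c v z) (h3 : c v y ≠ c v z) :
    c x y = c x z ∧ c x y = c y z := by
  have xy : x ≠ y := fun e => h1 (by rw [e])
  have xz : x ≠ z := fun e => h2 (by rw [e])
  have yz : y ≠ z := fun e => h3 (by rw [e])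
  rcases h.four v x y z hx.symm hy.symm hz.symm xy xz yz with e | e | e | e
  · exact absurd (h.mono v x y hx.symm hy.symm xy e).1 h1
  · exact absurd (h.mono v x z hx.symm hz.symm xz e).1 h2
  · exact absurd (h.mono v y z hy.symm hz.symm yz e).1 h3
  · exact h.mono x y z xy xz yz e

section Three

variable {v : V} {a : Fin 3 → V}

theorem pick (ha : ∀ i j, i ≠ j → c v (a i) ≠ c v (a j)) (s t : κ) :
    ∃ l, c v (a l) ≠ s ∧ c v (a l) ≠ t := by
  by_contra hcon
  push Not at hcon
  have h0 := ha 0 1 (by decide)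
  have h1 := ha 0 2 (by decide)
  have h2 := ha 1 2 (by decide)
  by_cases e0 : c v (a 0) = s
  · by_cases e1 : c v (a 1) = s
    · exact h0 (e0.trans e1.symm)
    · have e1' := hcon 1 e1
      by_cases e2 : c v (a 2) = s
      · exact h1 (e0.trans e2.symm)
      · exact h2 (e1'.trans (hcon 2 e2).symm)
  · have e0' := hcon 0 e0
    by_cases e1 : c v (a 1) = s
    · by_cases e2 : c v (a 2) = s
      · exact h2 (e1.trans e2.symm)
      · exact h1 (e0'.trans (hcon 2 e2).symm)
    · exact h0 (e0'.trans (hcon 1 e1).symm)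

theorem pick2 (ha : ∀ i j, i ≠ j → c v (a i) ≠ c v (a j)) (l : Fin 3) (s : κ) :
    ∃ m, m ≠ l ∧ c v (a m) ≠ s := by
  by_contra hcon
  push Not at hcon
  have f1 : ∀ l : Fin 3, l + 1 ≠ l := by decide
  have f2 : ∀ l : Fin 3, l + 2 ≠ l := by decide
  have f3 : ∀ l : Fin 3, l + 1 ≠ l + 2 := by decide
  exact ha _ _ (f3 l) ((hcon (l + 1) (f1 l)).trans (hcon (l + 2) (f2 l)).symm)

variable (h : Col E c) (hav : ∀ i, a i ≠ v) (ha : ∀ i j, i ≠ j → c v (a i) ≠ c v (a j))

include h hav ha

theorem Col.alpha : ∀ i j, i ≠ j → c (a i) (a j) = c (a 0) (a 1) := by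
  have h1 := h.f1 (hav 0) (hav 1) (hav 2) (ha 0 1 (by decide)) (ha 0 2 (by decide))
    (ha 1 2 (by decide))
  intro i j hij
  have s1 := h.symm (a 1) (a 0)
  have s2 := h.symm (a 2) (a 0)
  have s3 := h.symm (a 2) (a 1)
  fin_cases i <;> fin_cases j <;> first | exact absurd rfl hij | skip
  · rfl
  · exact h1.1.symm
  · exact s1
  · exact h1.2.symm
  · exact s2.trans h1.1.symm
  · exact s3.trans h1.2.symm

theorem Col.f2 {x y : V} (hx : x ≠ v) (hy : y ≠ v) (hxy : c v x ≠ c v y) :
    c x y = c (a 0) (a 1) := by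
  obtain ⟨l, l1, l2⟩ := pick ha (c v x) (c v y)
  have h1 := h.f1 hx hy (hav l) hxy l1.symm l2.symm
  obtain ⟨m, m1, m2⟩ := pick2 ha l (c v x)
  have h2 := h.f1 hx (hav l) (hav m) l1.symm m2.symm (ha l m m1.symm)
  rw [h1.1, h2.2]
  exact h.alpha hav ha l m m1.symm

theorem Col.f3 {x y : V} (hx : x ≠ v) (hy : y ≠ v) (hne : x ≠ y) (hxy : c v x = c v y) :
    c x y = c v x ∨ c x y = c (a 0) (a 1) := by
  obtain ⟨l, l1, l2⟩ := pick ha (c v x) (c v x)
  have lx : x ≠ a l := fun e => l1 (by rw [← e])
  have ly : y ≠ a l := fun e => l1 (by rw [← e, hxy])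
  rcases h.four v x y (a l) hx.symm hy.symm (hav l).symm hne lx ly with e | e | e | e
  · exact Or.inl (h.mono v x y hx.symm hy.symm hne e).2.symm
  · exact absurd (h.mono v x (a l) hx.symm (hav l).symm lx e).1.symm l1
  · rw [hxy] at l1
    exact absurd (h.mono v y (a l) hy.symm (hav l).symm ly e).1.symm l1
  · right
    rw [(h.mono x y (a l) hne lx ly e).1]
    exact h.f2 hav ha hx (hav l) l1.symm

theorem Col.f4 {x x' y y' : V} (hx : x ≠ v) (hx' : x' ≠ v) (hy : y ≠ v) (hy' : y' ≠ v)
    (h1 : x ≠ x') (h2 : y ≠ y') (h3 : c x x' ≠ c (a 0) (a 1)) (h4 : c y y' ≠ c (a 0) (a 1)) :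
    c x x' = c y y' := by
  by_contra h5
  have e1 : c v x = c v x' := by
    by_contra hh
    exact h3 (h.f2 hav ha hx hx' hh)
  have e2 : c v y = c v y' := by
    by_contra hh
    exact h4 (h.f2 hav ha hy hy' hh)
  have e3 : c x x' = c v x := by
    rcases h.f3 hav ha hx hx' h1 e1 with e | e
    · exact e
    · exact absurd e h3
  have e4 : c y y' = c v y := by
    rcases h.f3 hav ha hy hy' h2 e2 with e | e
    · exact e
    · exact absurd e h4
  have e5 : c v x ≠ c v y := by
    rw [← e3, ← e4]
    exact h5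
  have d1 : x ≠ y := fun e => e5 (by rw [e])
  have d2 : x ≠ y' := fun e => e5 (by rw [e, e2])
  have d3 : x' ≠ y := fun e => e5 (by rw [e1, e])
  have d4 : x' ≠ y' := fun e => e5 (by rw [e1, e, e2])
  have q1 := h.f2 hav ha hx hy e5
  have q2 := h.f2 hav ha hx hy' (by rw [← e2]; exact e5)
  have q3 := h.f2 hav ha hx' hy (by rw [← e1]; exact e5)
  rcases h.four x x' y y' h1 d1 d2 d3 d4 h2 with e | e | e | e
  · exact h3 ((h.mono x x' y h1 d1 d3 e).1.trans q1)
  · exact h3 ((h.mono x x' y' h1 d2 d4 e).1.trans q2)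
  · exact h4 ((h.mono x y y' d1 d2 h2 e).2.symm.trans q1)
  · exact h4 ((h.mono x' y y' d3 d4 h2 e).2.symm.trans q3)

end Three

/-- a triple of `E` of colour `k` -/
def Occ (E : V → V → V → Prop) (c : V → V → κ) (k : κ) : Prop :=
  ∃ x y z : V, x ≠ y ∧ x ≠ z ∧ y ≠ z ∧ E x y z ∧ c x y = k

/-- Every point sees at most two colours. -/
theorem Col.two (h : Col E c) {k : Fin 3 → κ} (hk : Function.Injective k)
    (hE : ∀ i, Occ E c (k i)) (v x y z : V) (hx : x ≠ v) (hy : y ≠ v) (hz : z ≠ v) :
    c v x = c v y ∨ c v x = c v z ∨ c v y = c v z := by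
  by_contra hcon
  push Not at hcon
  obtain ⟨n1, n2, n3⟩ := hcon
  set a : Fin 3 → V := ![x, y, z] with ha'
  have hav : ∀ i, a i ≠ v := by
    intro i
    fin_cases i
    · exact hx
    · exact hy
    · exact hz
  have ha : ∀ i j, i ≠ j → c v (a i) ≠ c v (a j) := by
    intro i j hij
    fin_cases i <;> fin_cases j <;> first | exact absurd rfl hij | skip
    · exact n1
    · exact n2
    · exact n1.symm
    · exact n3
    · exact n2.symm
    · exact n3.symm
  -- pairs of the three colours not containing `v`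
  have hp : ∀ i, ∃ p q : V, p ≠ v ∧ q ≠ v ∧ p ≠ q ∧ c p q = k i := by
    intro i
    obtain ⟨p, q, r, pq, pr, qr, hpqr, hc⟩ := hE i
    have hm := h.mono p q r pq pr qr hpqr
    by_cases e1 : p = v
    · exact ⟨q, r, fun e => pq (e1.trans e.symm), fun e => pr (e1.trans e.symm), qr,
        by rw [← hm.2, hc]⟩
    · by_cases e2 : q = v
      · exact ⟨p, r, e1, fun e => qr (e2.trans e.symm), pr, by rw [← hm.1, hc]⟩
      · exact ⟨p, q, e1, e2, pq, hc⟩
  choose p q hpv hqv hpq hck using hp
  have key : ∀ i j, i ≠ j → k i ≠ c (a 0) (a 1) → k j ≠ c (a 0) (a 1) → False := by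
    intro i j hij h1 h2
    have := h.f4 hav ha (hpv i) (hqv i) (hpv j) (hqv j) (hpq i) (hpq j)
      (by rw [hck]; exact h1) (by rw [hck]; exact h2)
    rw [hck, hck] at this
    exact hij (hk this)
  by_cases e0 : k 0 = c (a 0) (a 1)
  · refine key 1 2 (by decide) (fun e => ?_) (fun e => ?_)
    · exact absurd (hk (e0.trans e.symm)) (by decide)
    · exact absurd (hk (e0.trans e.symm)) (by decide)
  · by_cases e1 : k 1 = c (a 0) (a 1)
    · refine key 0 2 (by decide) e0 (fun e => ?_)
      exact absurd (hk (e1.trans e.symm)) (by decide)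
    · exact key 0 1 (by decide) e0 e1

/-- A set of two points for every colour: if all points see the colour `s`, then there is at most
one other colour. -/
theorem star (h : Col E c)
    (h2 : ∀ v x y z : V, x ≠ v → y ≠ v → z ≠ v → c v x = c v y ∨ c v x = c v z ∨ c v y = c v z)
    {s : κ} (hs : ∀ x, ∃ y, y ≠ x ∧ c x y = s) {x x' y y' : V} (hx : x ≠ x') (hy : y ≠ y')
    (h3 : c x x' ≠ s) (h4 : c y y' ≠ s) : c x x' = c y y' := by
  by_contra hne
  -- the colours at the two ends of a pair not coloured `s`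
  have ends : ∀ u u' : V, u ≠ u' → c u u' ≠ s → ∀ t, t ≠ u → c u t = c u u' ∨ c u t = s := by
    intro u u' huu hus t ht
    obtain ⟨r, hr, hrs⟩ := hs u
    rcases h2 u t u' r ht huu.symm hr with e | e | e
    · exact Or.inl e
    · exact Or.inr (e.trans hrs)
    · exact absurd (e.trans hrs) hus
  have Ex := ends x x' hx h3
  have Ex' : ∀ t, t ≠ x' → c x' t = c x x' ∨ c x' t = s := by
    intro t ht
    have := ends x' x hx.symm (by rw [h.symm]; exact h3) t ht
    rwa [h.symm x' x] at this
  have Ey := ends y y' hy h4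
  have Ey' : ∀ t, t ≠ y' → c y' t = c y y' ∨ c y' t = s := by
    intro t ht
    have := ends y' y hy.symm (by rw [h.symm]; exact h4) t ht
    rwa [h.symm y' y] at this
  have d1 : x ≠ y := by
    rintro rfl
    rcases Ex y' hy.symm with e | e
    · exact hne e.symm
    · exact h4 e
  have d2 : x ≠ y' := by
    rintro rfl
    rcases Ex y hy with e | e
    · exact hne (by rw [← e, h.symm])
    · exact h4 (by rw [h.symm]; exact e)
  have d3 : x' ≠ y := by
    rintro rfl
    rcases Ex' y' hy.symm with e | e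
    · exact hne e.symm
    · exact h4 e
  have d4 : x' ≠ y' := by
    rintro rfl
    rcases Ex' y hy with e | e
    · exact hne (by rw [← e, h.symm])
    · exact h4 (by rw [h.symm]; exact e)
  have cross : ∀ u t : V, u ≠ t → (c u t = c x x' ∨ c u t = s) → (c t u = c y y' ∨ c t u = s) →
      c u t = s := by
    intro u t _ hu ht
    rcases hu with e | e
    · rcases ht with e' | e'
      · exact absurd (e.symm.trans ((h.symm u t).trans e')) hne
      · rw [h.symm]
        exact e'
    · exact e
  have q1 := cross x y d1 (Ex y d1.symm) (Ey x d1)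
  have q2 := cross x y' d2 (Ex y' d2.symm) (Ey' x d2)
  have q3 := cross x' y d3 (Ex' y d3.symm) (Ey x' d3)
  rcases h.four x x' y y' hx d1 d2 d3 d4 hy with e | e | e | e
  · exact h3 ((h.mono x x' y hx d1 d3 e).1.trans q1)
  · exact h3 ((h.mono x x' y' hx d2 d4 e).1.trans q2)
  · exact h4 ((h.mono x y y' d1 d2 hy e).2.symm.trans q1)
  · exact h4 ((h.mono x' y y' d3 d4 hy e).2.symm.trans q3)

/-- The classes: every point `z` misses exactly one colour `K (g z)` of three. -/
theorem classes (h : Col E c)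
    (h2 : ∀ v x y z : V, x ≠ v → y ≠ v → z ≠ v → c v x = c v y ∨ c v x = c v z ∨ c v y = c v z)
    (hm : ∀ s : κ, ∃ x, ∀ y, y ≠ x → c x y ≠ s) (hV : ∃ x y : V, x ≠ y) :
    ∃ (K : Fin 3 → κ) (g : V → Fin 3), Function.Injective K ∧ (∀ i, ∃ z, g z = i) ∧
      ∀ z y, z ≠ y → ∃ j, c z y = K j ∧ j ≠ g z ∧ j ≠ g y := by
  classical
  obtain ⟨x, x', hxx⟩ := hV
  set k := c x x' with hk
  obtain ⟨w, hw⟩ := hm k
  have xw : x ≠ w := by
    rintro rfl
    exact hw x' hxx.symm rfl
  set p := c x w with hp
  have pk : p ≠ k := by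
    rw [hp, h.symm]
    exact hw x xw
  obtain ⟨u, hu⟩ := hm p
  have ux : u ≠ x := by
    rintro rfl
    exact hu w xw.symm rfl
  have uw : u ≠ w := by
    rintro rfl
    exact hu x xw (by rw [h.symm])
  -- two colours at a point
  have tw : ∀ z a b : V, a ≠ z → b ≠ z → c z a ≠ c z b → ∀ y, y ≠ z →
      c z y = c z a ∨ c z y = c z b := by
    intro z a b ha hb hab y hy
    rcases h2 z y a b hy ha hb with e | e | e
    · exact Or.inl e
    · exact Or.inr e
    · exact absurd e hab
  have X : ∀ y, y ≠ x → c x y = k ∨ c x y = p := tw x x' w hxx.symm xw.symm pk.symm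
  have cxu : c x u = k := by
    rcases X u ux with e | e
    · exact e
    · exact absurd (by rw [h.symm]; exact e) (hu x ux.symm)
  set q := c u w with hq
  have qk : q ≠ k := by
    rw [hq, h.symm]
    exact hw u uw
  have qp : q ≠ p := hu w uw.symm
  have W : ∀ y, y ≠ w → c w y = p ∨ c w y = q := by
    have e1 : c w x = p := by rw [h.symm]
    have e2 : c w u = q := by rw [h.symm]
    have := tw w x u xw uw (by rw [e1, e2]; exact qp.symm)
    rwa [e1, e2] at this
  have U : ∀ y, y ≠ u → c u y = k ∨ c u y = q := by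
    have e1 : c u x = k := by rw [h.symm]; exact cxu
    have := tw u x w ux.symm uw.symm (by rw [e1]; exact qk.symm)
    rwa [e1] at this
  set K : Fin 3 → κ := ![q, k, p] with hK
  have K0 : K 0 = q := rfl
  have K1 : K 1 = k := rfl
  have K2 : K 2 = p := rfl
  have hKi : Function.Injective K := by
    intro i j hij
    fin_cases i <;> fin_cases j <;> first | rfl | skip
    · exact absurd hij qk
    · exact absurd hij qp
    · exact absurd hij.symm qk
    · exact absurd hij.symm pk
    · exact absurd hij.symm qp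
    · exact absurd hij pk
  -- the missing colour
  have key : ∀ z, ∃ i : Fin 3, ∀ y, y ≠ z → ∃ j, j ≠ i ∧ c z y = K j := by
    intro z
    have fin0 : (∀ y, y ≠ z → c z y = k ∨ c z y = p) → ∃ i : Fin 3, ∀ y, y ≠ z →
        ∃ j, j ≠ i ∧ c z y = K j := by
      intro hz
      refine ⟨0, fun y hy => ?_⟩
      rcases hz y hy with e | e
      · exact ⟨1, by decide, e⟩
      · exact ⟨2, by decide, e⟩
    have fin1 : (∀ y, y ≠ z → c z y = p ∨ c z y = q) → ∃ i : Fin 3, ∀ y, y ≠ z →
        ∃ j, j ≠ i ∧ c z y = K j := by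
      intro hz
      refine ⟨1, fun y hy => ?_⟩
      rcases hz y hy with e | e
      · exact ⟨2, by decide, e⟩
      · exact ⟨0, by decide, e⟩
    have fin2 : (∀ y, y ≠ z → c z y = k ∨ c z y = q) → ∃ i : Fin 3, ∀ y, y ≠ z →
        ∃ j, j ≠ i ∧ c z y = K j := by
      intro hz
      refine ⟨2, fun y hy => ?_⟩
      rcases hz y hy with e | e
      · exact ⟨1, by decide, e⟩
      · exact ⟨0, by decide, e⟩
    by_cases zx : z = x
    · rw [zx] at fin0 ⊢
      exact fin0 X
    · by_cases zw : z = w
      · rw [zw] at fin1 ⊢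
        exact fin1 W
      · by_cases zu : z = u
        · rw [zu] at fin2 ⊢
          exact fin2 U
        · have a1 : c z x = k ∨ c z x = p := by rw [h.symm]; exact X z zx
          have a2 : c z w = p ∨ c z w = q := by rw [h.symm]; exact W z zw
          have a3 : c z u = k ∨ c z u = q := by rw [h.symm]; exact U z zu
          rcases a1 with a1 | a1 <;> rcases a2 with a2 | a2 <;> rcases a3 with a3 | a3
          · -- k p k
            apply fin0
            have := tw z x w (Ne.symm zx) (Ne.symm zw) (by rw [a1, a2]; exact pk.symm)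
            rwa [a1, a2] at this
          · exfalso
            rcases h2 z x w u (Ne.symm zx) (Ne.symm zw) (Ne.symm zu) with e | e | e
            · rw [a1, a2] at e; exact pk e.symm
            · rw [a1, a3] at e; exact qk e.symm
            · rw [a2, a3] at e; exact qp e.symm
          · apply fin2
            have := tw z x w (Ne.symm zx) (Ne.symm zw) (by rw [a1, a2]; exact qk.symm)
            rwa [a1, a2] at this
          · apply fin2
            have := tw z x w (Ne.symm zx) (Ne.symm zw) (by rw [a1, a2]; exact qk.symm)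
            rwa [a1, a2] at this
          · apply fin0
            have := tw z u x (Ne.symm zu) (Ne.symm zx) (by rw [a1, a3]; exact pk.symm)
            rwa [a1, a3] at this
          · apply fin1
            have := tw z x u (Ne.symm zx) (Ne.symm zu) (by rw [a1, a3]; exact qp.symm)
            rwa [a1, a3] at this
          · exfalso
            rcases h2 z x w u (Ne.symm zx) (Ne.symm zw) (Ne.symm zu) with e | e | e
            · rw [a1, a2] at e; exact qp e.symm
            · rw [a1, a3] at e; exact pk e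
            · rw [a2, a3] at e; exact qk e
          · apply fin1
            have := tw z x w (Ne.symm zx) (Ne.symm zw) (by rw [a1, a2]; exact qp.symm)
            rwa [a1, a2] at this
  choose g hg using key
  have sees : ∀ z y j, y ≠ z → c z y = K j → j ≠ g z := by
    intro z y j hy hc hj
    obtain ⟨i, i1, i2⟩ := hg z y hy
    exact i1 ((hKi (i2.symm.trans hc)).trans hj)
  have only : ∀ i a b : Fin 3, (1 ≠ i → 2 ≠ i → i = 0) ∧ (0 ≠ i → 2 ≠ i → i = 1) ∧
      (0 ≠ i → 1 ≠ i → i = 2) := by decide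
  refine ⟨K, g, hKi, ?_, fun z y hzy => ?_⟩
  · intro i
    fin_cases i
    · exact ⟨x, (only (g x) 0 0).1 (sees x x' 1 hxx.symm rfl) (sees x w 2 xw.symm rfl)⟩
    · exact ⟨w, (only (g w) 0 0).2.1 (sees w u 0 uw (h.symm w u)) (sees w x 2 xw (h.symm w x))⟩
    · exact ⟨u, (only (g u) 0 0).2.2 (sees u w 0 uw.symm rfl)
        (sees u x 1 ux.symm ((h.symm u x).trans cxu))⟩
  obtain ⟨j, j1, j2⟩ := hg z y hzy.symm
  obtain ⟨i, i1, i2⟩ := hg y z hzy
  have : i = j := hKi (by rw [← i2, ← j2, h.symm])
  subst this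
  exact ⟨i, j2, j1, i1⟩

end Pool.Agent.R810.TC
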