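import Pool.Agent.R810.LJ.Data

/-! Finite facts. -/

set_option autoImplicit false

namespace Pool.Agent.R810.TC

open Pool.Agent.R810.LJ (pat)

/-- the colour of a pair between two classes -/
def col (i j : Fin 3) : Fin 3 := if j = i + 1 then j else i

theorem col_symm : ∀ i j : Fin 3, col i j = col j i := by decide

theorem col_mono : ∀ i j l : Fin 3, (col i j = col i l ∧ col i j = col j l) ↔
    pat i j l = false := by decide

theorem cov_pat : ∀ i j l : Fin 3, ((∃ k, i = k ∧ j = k ∧ l = k) ∨
      ∃ k, ((if i = k then 1 else 0) + ((if j = k then 1 else 0) + (if l = k then 1 else 0)) = 2 ∧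
      (if i = k + 1 then 1 else 0) + ((if j = k + 1 then 1 else 0) +
        (if l = k + 1 then 1 else 0)) = 1)) →
    (i = j ∧ (l = i ∨ l = i + 1)) ∨ (j = l ∧ (i = j ∨ i = j + 1)) ∨
      (l = i ∧ (j = l ∨ j = l + 1)) := by
  decide

theorem cov_pat' : ∀ i j l : Fin 3, ((∃ k, i = k ∧ j = k ∧ l = k) ∨
      ∃ k, ((if i = k then 1 else 0) + ((if j = k then 1 else 0) + (if l = k then 1 else 0)) = 2 ∧
      (if i = k + 1 then 1 else 0) + ((if j = k + 1 then 1 else 0) +
        (if l = k + 1 then 1 else 0)) = 1)) ↔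
    pat (-i) (-j) (-l) = false := by
  decide

end Pool.Agent.R810.TC
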