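import Pool.Agent.R810.TC.Reduce
import Pool.Agent.R810.TC.Data
import Pool.Agent.R810.TC.Bal

/-! The results for sets of triples. -/

set_option autoImplicit false
open Finset
open scoped Classical

namespace Pool.Agent.R810.TC

open Pool.Agent.R810.LJ (tn ind ind_t ind_f ind_nonneg six_le ord_le_six ordered_le aa bb
  dist_of swap_set rot_set filter_three c2 tn_zero tn_one tn_two card4)

/-- Turán's number -/
def fn (n : ℕ) : ℕ :=
  (n / 3).choose 3 + ((n + 1) / 3).choose 3 + ((n + 2) / 3).choose 3 +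
    (n / 3).choose 2 * ((n + 2) / 3) + ((n + 1) / 3).choose 2 * (n / 3) +
    ((n + 2) / 3).choose 2 * ((n + 1) / 3)

theorem c3 (m : ℕ) : 6 * ((m.choose 3 : ℕ) : ℤ) = (m : ℤ) * ((m : ℤ) - 1) * ((m : ℤ) - 2) := by
  induction m with
  | zero => simp
  | succ m ih =>
    have h2 := c2 m
    rw [Nat.choose_succ_succ' m 2]
    push_cast
    rw [mul_add, ih]
    linear_combination 3 * h2

theorem split_choose (a b c : ℕ) : (a + b + c).choose 3 =
    (a * b * c + a.choose 2 * b + b.choose 2 * c + c.choose 2 * a) +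
    (a.choose 3 + b.choose 3 + c.choose 3 + a.choose 2 * c + b.choose 2 * a + c.choose 2 * b) := by
  have h : 6 * (((a + b + c).choose 3 : ℕ) : ℤ) = 6 * (((a * b * c + a.choose 2 * b +
    b.choose 2 * c + c.choose 2 * a) + (a.choose 3 + b.choose 3 + c.choose 3 + a.choose 2 * c +
    b.choose 2 * a + c.choose 2 * b) : ℕ) : ℤ) := by
    rw [c3]
    push_cast
    linear_combination (-1 : ℤ) * c3 a - c3 b - c3 c - 3 * ((b : ℤ) + c) * c2 a -
      3 * ((a : ℤ) + c) * c2 b - 3 * ((a : ℤ) + b) * c2 c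
  have h2 : (((a + b + c).choose 3 : ℕ) : ℤ) = (((a * b * c + a.choose 2 * b +
    b.choose 2 * c + c.choose 2 * a) + (a.choose 3 + b.choose 3 + c.choose 3 + a.choose 2 * c +
    b.choose 2 * a + c.choose 2 * b) : ℕ) : ℤ) := by linarith
  exact_mod_cast h2

theorem tn_add_fn (n : ℕ) : tn n + fn n = n.choose 3 := by
  have h := split_choose (n / 3) ((n + 1) / 3) ((n + 2) / 3)
  have e : n / 3 + (n + 1) / 3 + (n + 2) / 3 = n := by omega
  rw [e] at h
  rw [h]
  unfold tn fn
  ring

/-- the bound for two colours suffices -/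
theorem fn_le_of {n x : ℕ} (h : (n : ℤ) * (n - 1) * (2 * n - 7) ≤ 24 * (x : ℤ)) : fn n ≤ x := by
  have h1 : 6 * (fn n : ℤ) = (n : ℤ) * (n - 1) * (n - 2) - 6 * (tn n : ℤ) := by
    have := tn_add_fn n
    have h2 : ((tn n + fn n : ℕ) : ℤ) = ((n.choose 3 : ℕ) : ℤ) := by rw [this]
    have h3 := c3 n
    push_cast at h2
    linarith
  by_contra hcon
  push Not at hcon
  have h4 : (x : ℤ) + 1 ≤ fn n := by exact_mod_cast hcon
  rcases (by omega : n % 3 = 0 ∨ n % 3 = 1 ∨ n % 3 = 2) with h5 | h5 | h5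
  · obtain ⟨q, rfl⟩ : ∃ q, n = 3 * q := ⟨n / 3, by omega⟩
    have t := tn_zero q
    push_cast at h h1
    rcases (by omega : q = 0 ∨ q = 1 ∨ 2 ≤ q) with h6 | h6 | h6
    · subst h6; norm_num at *; omega
    · subst h6; norm_num at *; omega
    · obtain ⟨r, rfl⟩ : ∃ r, q = r + 2 := ⟨q - 2, by omega⟩
      have hr : (0 : ℤ) ≤ r := Int.natCast_nonneg r
      push_cast at h h1 t
      nlinarith [mul_nonneg hr hr, mul_nonneg (mul_nonneg hr hr) hr]
  · obtain ⟨q, rfl⟩ : ∃ q, n = 3 * q + 1 := ⟨n / 3, by omega⟩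
    have t := tn_one q
    push_cast at h h1
    rcases (by omega : q = 0 ∨ q = 1 ∨ 2 ≤ q) with h6 | h6 | h6
    · subst h6; norm_num at *; omega
    · subst h6; norm_num at *; omega
    · obtain ⟨r, rfl⟩ : ∃ r, q = r + 2 := ⟨q - 2, by omega⟩
      have hr : (0 : ℤ) ≤ r := Int.natCast_nonneg r
      push_cast at h h1 t
      nlinarith [mul_nonneg hr hr, mul_nonneg (mul_nonneg hr hr) hr]
  · obtain ⟨q, rfl⟩ : ∃ q, n = 3 * q + 2 := ⟨n / 3, by omega⟩
    have t := tn_two q
    push_cast at h h1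
    rcases (by omega : q = 0 ∨ q = 1 ∨ 2 ≤ q) with h6 | h6 | h6
    · subst h6; norm_num at *; omega
    · subst h6; norm_num at *; omega
    · obtain ⟨r, rfl⟩ : ∃ r, q = r + 2 := ⟨q - 2, by omega⟩
      have hr : (0 : ℤ) ≤ r := Int.natCast_nonneg r
      push_cast at h h1 t
      nlinarith [mul_nonneg hr hr, mul_nonneg (mul_nonneg hr hr) hr]

variable {n : ℕ}

/-- Turán's construction: the triples inside a class, and the triples with two vertices in a class
and one vertex in the (cyclically) next class. -/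
def turanCovering (g : Fin n → Fin 3) : Finset (Finset (Fin n)) :=
  univ.filter fun e => e.card = 3 ∧ ((∃ k, ∀ x ∈ e, g x = k) ∨
    ∃ k, (e.filter fun x => g x = k).card = 2 ∧ (e.filter fun x => g x = k + 1).card = 1)

theorem mem_cov (g : Fin n → Fin 3) {x y z : Fin n} (h1 : x ≠ y) (h2 : x ≠ z) (h3 : y ≠ z) :
    ({x, y, z} : Finset (Fin n)) ∈ turanCovering g ↔ ((∃ k, g x = k ∧ g y = k ∧ g z = k) ∨
      ∃ k, ((if g x = k then 1 else 0) + ((if g y = k then 1 else 0) +
        (if g z = k then 1 else 0)) = 2 ∧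
      (if g x = k + 1 then 1 else 0) + ((if g y = k + 1 then 1 else 0) +
        (if g z = k + 1 then 1 else 0)) = 1)) := by
  have hc : ({x, y, z} : Finset (Fin n)).card = 3 := card_eq_three.2 ⟨x, y, z, h1, h2, h3, rfl⟩
  unfold turanCovering
  rw [mem_filter]
  simp only [mem_univ, true_and, hc]
  refine or_congr ?_ ?_
  · simp
  · refine exists_congr fun k => ?_
    rw [filter_three g h1 h2 h3, filter_three g h1 h2 h3]

/-- every four vertices contain a triple of `T` -/
def Covers (T : Finset (Finset (Fin n))) : Prop :=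
  ∀ S : Finset (Fin n), S.card = 4 → ∃ e ∈ T, e ⊆ S

/-- from the relation to the set of triples -/
theorem of_turan {T : Finset (Finset (Fin n))} (h3 : ∀ e ∈ T, e.card = 3) {g : Fin n → Fin 3}
    (hg : ∀ x y z : Fin n, x ≠ y → x ≠ z → y ≠ z → g x = g y → (g z = g x ∨ g z = g x + 1) →
      ({x, y, z} : Finset (Fin n)) ∈ T) : turanCovering g ⊆ T ∧ fn n ≤ T.card := by
  constructor
  · intro e he
    have hc : e.card = 3 := (mem_filter.1 he).2.1
    obtain ⟨x, y, z, d1, d2, d3, rfl⟩ := card_eq_three.1 hc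
    rw [mem_cov g d1 d2 d3] at he
    rcases cov_pat _ _ _ he with h | h | h
    · exact hg x y z d1 d2 d3 h.1 h.2
    · have := hg y z x d3 d1.symm d2.symm h.1 h.2
      rwa [← rot_set] at this
    · have := hg z x y d2.symm d3.symm d1 h.1 h.2
      rwa [rot_set z x y] at this
  · set H : Finset (Finset (Fin n)) := powersetCard 3 univ \ T with hH
    have hH3 : ∀ e ∈ H, e.card = 3 := fun e he => (mem_powersetCard.1 (mem_sdiff.1 he).1).2
    have hsub : T ⊆ powersetCard 3 univ := fun e he =>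
      mem_powersetCard.2 ⟨subset_univ _, h3 e he⟩
    have hcard : T.card + H.card = n.choose 3 := by
      have h5 : H.card + T.card = (powersetCard 3 (univ : Finset (Fin n))).card := by
        rw [hH]
        exact card_sdiff_add_card_eq_card hsub
      rw [card_powersetCard, card_univ, Fintype.card_fin] at h5
      omega
    have h1 := six_le hH3
    have h2 := ordered_le g (fun x y z : Fin n => ({x, y, z} : Finset (Fin n)) ∈ H)
      (fun x y z h => dist_of hH3 h) ?_
    · rw [Fintype.card_fin] at h2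
      have h5 : (H.card : ℤ) ≤ (tn n : ℤ) := by linarith
      have h6 : H.card ≤ tn n := by exact_mod_cast h5
      have h7 := tn_add_fn n
      omega
    · intro x y z hP
      obtain ⟨d1, d2, d3⟩ := dist_of hH3 hP
      have hnT : ({x, y, z} : Finset (Fin n)) ∉ T := (mem_sdiff.1 hP).2
      refine LJ.key3 (g x) (g y) (g z) ?_ ?_ ?_
      · rintro ⟨h5, h6⟩
        exact hnT (hg x y z d1 d2 d3 h5 h6)
      · rintro ⟨h5, h6⟩
        apply hnT
        rw [rot_set]
        exact hg y z x d3 d1.symm d2.symm h5 h6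
      · rintro ⟨h5, h6⟩
        apply hnT
        rw [rot_set, rot_set]
        exact hg z x y d2.symm d3.symm d1 h5 h6

theorem four_T {T : Finset (Finset (Fin n))} (h3 : ∀ e ∈ T, e.card = 3) (hT : Covers T)
    (a b d e : Fin n) (h1 : a ≠ b) (h2 : a ≠ d) (h4 : a ≠ e) (h5 : b ≠ d) (h6 : b ≠ e)
    (h7 : d ≠ e) : ({a, b, d} : Finset (Fin n)) ∈ T ∨ ({a, b, e} : Finset (Fin n)) ∈ T ∨
      ({a, d, e} : Finset (Fin n)) ∈ T ∨ ({b, d, e} : Finset (Fin n)) ∈ T := by
  by_contra hcon
  push Not at hcon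
  have hK : LJ.K43Free (powersetCard 3 univ \ T) := by
    intro S hS
    obtain ⟨f, hf, hfS⟩ := hT S hS
    exact ⟨f, hfS, h3 f hf, fun hm => (mem_sdiff.1 hm).2 hf⟩
  have hm : ∀ x y z : Fin n, x ≠ y → x ≠ z → y ≠ z → ({x, y, z} : Finset (Fin n)) ∉ T →
      ({x, y, z} : Finset (Fin n)) ∈ powersetCard 3 univ \ T := by
    intro x y z u1 u2 u3 u4
    rw [mem_sdiff, mem_powersetCard]
    exact ⟨⟨subset_univ _, card_eq_three.2 ⟨x, y, z, u1, u2, u3, rfl⟩⟩, u4⟩
  exact LJ.four_of _ hK h1 h2 h4 h5 h6 h7 (hm _ _ _ h1 h2 h5 hcon.1) (hm _ _ _ h1 h4 h6 hcon.2.1)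
    (hm _ _ _ h2 h4 h7 hcon.2.2.1) (hm _ _ _ h5 h6 h7 hcon.2.2.2)

/-! ### Tight components -/

/-- a tight path of triples of `T` from `e` to `f`: consecutive triples have two common vertices -/
def Linked (T : Finset (Finset (Fin n))) (e f : Finset (Fin n)) : Prop :=
  Relation.ReflTransGen (fun a b => a ∈ T ∧ b ∈ T ∧ (a ∩ b).card = 2) e f

theorem Linked.symm {T : Finset (Finset (Fin n))} {e f : Finset (Fin n)} (h : Linked T e f) :
    Linked T f e := by
  induction h with
  | refl => exact Relation.ReflTransGen.refl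
  | tail _ hbc ih =>
    obtain ⟨h1, h2, h3⟩ := hbc
    exact Relation.ReflTransGen.trans
      (Relation.ReflTransGen.single ⟨h2, h1, by rw [inter_comm]; exact h3⟩) ih

/-- the tight component of a pair -/
def comp (T : Finset (Finset (Fin n))) (x y : Fin n) : Set (Finset (Fin n)) :=
  {f | ∃ e ∈ T, x ∈ e ∧ y ∈ e ∧ Linked T e f}

theorem comp_symm (T : Finset (Finset (Fin n))) (x y : Fin n) : comp T x y = comp T y x := by
  ext f
  constructor
  · rintro ⟨e, h1, h2, h3, h4⟩
    exact ⟨e, h1, h3, h2, h4⟩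
  · rintro ⟨e, h1, h2, h3, h4⟩
    exact ⟨e, h1, h3, h2, h4⟩

theorem comp_eq {T : Finset (Finset (Fin n))} (h3 : ∀ e ∈ T, e.card = 3) {x y : Fin n}
    (hxy : x ≠ y) {e : Finset (Fin n)} (he : e ∈ T) (hx : x ∈ e) (hy : y ∈ e) :
    comp T x y = {f | Linked T e f} := by
  ext f
  constructor
  · rintro ⟨e', h1, h2, h4, h5⟩
    have hle : Linked T e e' := by
      have hs : ({x, y} : Finset (Fin n)) ⊆ e ∩ e' := by
        intro t ht
        rw [mem_insert, mem_singleton] at ht
        rw [mem_inter]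
        rcases ht with rfl | rfl
        · exact ⟨hx, h2⟩
        · exact ⟨hy, h4⟩
      have h6 := card_le_card hs
      rw [card_pair hxy] at h6
      by_cases h7 : (e ∩ e').card = 2
      · exact Relation.ReflTransGen.single ⟨he, h1, h7⟩
      · have h8 : (e ∩ e').card ≤ 3 := (card_le_card inter_subset_left).trans (h3 e he).le
        have h9 : (e ∩ e').card = 3 := by omega
        have e1 : e ∩ e' = e := eq_of_subset_of_card_le inter_subset_left (by rw [h9, h3 e he])
        have e2 : e ∩ e' = e' := eq_of_subset_of_card_le inter_subset_right (by rw [h9, h3 e' h1])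
        rw [← e1.symm.trans e2]
        exact Relation.ReflTransGen.refl
    exact hle.trans h5
  · intro h
    exact ⟨e, he, hx, hy, h⟩

theorem tight_col {T : Finset (Finset (Fin n))} (h3 : ∀ e ∈ T, e.card = 3) (hT : Covers T) :
    Col (fun x y z => ({x, y, z} : Finset (Fin n)) ∈ T) (comp T) where
  four := four_T h3 hT
  symm := comp_symm T
  mono x y z hxy hxz hyz he := by
    rw [comp_eq h3 hxy he (by simp) (by simp), comp_eq h3 hxz he (by simp) (by simp),
      comp_eq h3 hyz he (by simp) (by simp)]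
    exact ⟨rfl, rfl⟩

theorem tight_main {T : Finset (Finset (Fin n))} (h3 : ∀ e ∈ T, e.card = 3) (hT : Covers T)
    {p : Fin 3 → Finset (Fin n)} (hp : ∀ i, p i ∈ T) (hne : ∀ i j, i ≠ j → ¬ Linked T (p i) (p j)) :
    (∃ g : Fin n → Fin 3, (∀ i, 2 ≤ (univ.filter fun x => g x = i).card) ∧
      turanCovering g ⊆ T) ∧ fn n ≤ T.card ∧ ∀ e ∈ T, ∃ i, Linked T (p i) e := by
  have hcol := tight_col h3 hT
  set k : Fin 3 → Set (Finset (Fin n)) := fun i => {f | Linked T (p i) f} with hk
  have hkin : Function.Injective k := by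
    intro i j hij
    by_contra hh
    have : p j ∈ k i := by
      rw [hij]
      exact Relation.ReflTransGen.refl
    exact hne i j hh this
  have hocc : ∀ e ∈ T, Occ (fun x y z => ({x, y, z} : Finset (Fin n)) ∈ T) (comp T)
      {f | Linked T e f} := by
    intro e he
    obtain ⟨x, y, z, d1, d2, d3, rfl⟩ := card_eq_three.1 (h3 e he)
    exact ⟨x, y, z, d1, d2, d3, he, comp_eq h3 d1 he (by simp) (by simp)⟩
  obtain ⟨K, g, hK, hg2, hcK, hg⟩ := turan_of hcol hkin fun i => hocc (p i) (hp i)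
  have h5 := of_turan h3 hg
  refine ⟨⟨g, hg2, h5.1⟩, h5.2, ?_⟩
  -- all components
  have hKk : ∀ i, ∃ j, k i = K j := by
    intro i
    obtain ⟨x, y, z, d1, -, -, -, hc⟩ := hocc (p i) (hp i)
    obtain ⟨j, hj⟩ := hcK x y d1
    exact ⟨j, by rw [← hj, hc]⟩
  choose σ hσ using hKk
  have hσi : Function.Injective σ := fun a b hab => hkin (by rw [hσ, hσ, hab])
  have hσs := Finite.surjective_of_injective hσi
  intro e he
  obtain ⟨x, y, z, d1, -, -, -, hc⟩ := hocc e he
  obtain ⟨j, hj⟩ := hcK x y d1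
  obtain ⟨i, rfl⟩ := hσs j
  refine ⟨i, ?_⟩
  have : {f | Linked T e f} = k i := by rw [← hc, hj, ← hσ]
  have h6 : e ∈ k i := by
    rw [← this]
    exact Relation.ReflTransGen.refl
  exact h6

/-! ### Colourings -/

/-- all pairs in `e` have the same colour -/
def IsMono {κ : Type*} (c : Fin n → Fin n → κ) (e : Finset (Fin n)) : Prop :=
  ∃ k, ∀ x ∈ e, ∀ y ∈ e, x ≠ y → c x y = k

theorem isMono_iff {κ : Type*} {c : Fin n → Fin n → κ} (hs : ∀ x y, c x y = c y x)
    {x y z : Fin n} (h1 : x ≠ y) (h2 : x ≠ z) (h3 : y ≠ z) :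
    IsMono c {x, y, z} ↔ Mono c x y z := by
  unfold IsMono Mono
  constructor
  · rintro ⟨k, hk⟩
    rw [hk x (by simp) y (by simp) h1, hk x (by simp) z (by simp) h2, hk y (by simp) z (by simp) h3]
    exact ⟨rfl, rfl⟩
  · rintro ⟨e1, e2⟩
    refine ⟨c x y, ?_⟩
    intro a ha b hb hab
    simp only [mem_insert, mem_singleton] at ha hb
    rcases ha with rfl | rfl | rfl <;> rcases hb with rfl | rfl | rfl <;>
      first
        | exact absurd rfl hab
        | rfl
        | exact e1.symm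
        | exact e2.symm
        | exact hs _ _
        | exact (hs _ _).trans e1.symm
        | exact (hs _ _).trans e2.symm

/-- the monochromatic triples -/
noncomputable def monoTriples {κ : Type*} (c : Fin n → Fin n → κ) : Finset (Finset (Fin n)) :=
  univ.filter fun e => e.card = 3 ∧ IsMono c e

theorem mem_monoTriples {κ : Type*} {c : Fin n → Fin n → κ} (hs : ∀ x y, c x y = c y x)
    {x y z : Fin n} (h1 : x ≠ y) (h2 : x ≠ z) (h3 : y ≠ z) :
    ({x, y, z} : Finset (Fin n)) ∈ monoTriples c ↔ Mono c x y z := by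
  unfold monoTriples
  rw [mem_filter, isMono_iff hs h1 h2 h3]
  have hc : ({x, y, z} : Finset (Fin n)).card = 3 := card_eq_three.2 ⟨x, y, z, h1, h2, h3, rfl⟩
  simp [hc]

theorem colouring_lower {κ : Type*} {c : Fin n → Fin n → κ} (hs : ∀ x y, c x y = c y x)
    (hc : Covers (monoTriples c)) : fn n ≤ (monoTriples c).card := by
  have h3 : ∀ e ∈ monoTriples c, e.card = 3 := fun e he => (mem_filter.1 he).2.1
  have hgood : Good c := by
    refine ⟨hs, fun a b d e ab ad ae bd be de => ?_⟩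
    rcases four_T h3 hc a b d e ab ad ae bd be de with q | q | q | q
    · exact Or.inl ((mem_monoTriples hs ab ad bd).1 q)
    · exact Or.inr (Or.inl ((mem_monoTriples hs ab ae be).1 q))
    · exact Or.inr (Or.inr (Or.inl ((mem_monoTriples hs ad ae de).1 q)))
    · exact Or.inr (Or.inr (Or.inr ((mem_monoTriples hs bd be de).1 q)))
  by_cases hk : ∃ k : Fin 3 → κ, Function.Injective k ∧ ∀ i, Occ (Mono c) c (k i)
  · obtain ⟨k, hki, hocc⟩ := hk
    obtain ⟨K, g, -, -, -, hg⟩ := turan_of hgood.col hki hocc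
    refine (of_turan h3 (g := g) ?_).2
    intro x y z d1 d2 d3 e1 e2
    exact (mem_monoTriples hs d1 d2 d3).2 (hg x y z d1 d2 d3 e1 e2)
  · obtain ⟨c', hc', hm⟩ := reduce hgood hk
    have h5 := (two_bound hc' (univ : Finset (Fin n))).1
    have h6 := ord_le_six h3
    have h7 : mon c' univ ≤ ∑ x : Fin n, ∑ y : Fin n, ∑ z : Fin n,
        ind (({x, y, z} : Finset (Fin n)) ∈ monoTriples c) := by
      unfold mon
      refine sum_le_sum fun x _ => sum_le_sum fun y _ => sum_le_sum fun z _ => ?_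
      split_ifs with h8
      · rw [ind_t]
        exact (mem_monoTriples hs h8.1 h8.2.1 h8.2.2.1).2
          (hm x y z h8.1 h8.2.1 h8.2.2.1 h8.2.2.2)
      · exact ind_nonneg _
    rw [card_univ, Fintype.card_fin] at h5
    apply fn_le_of
    nlinarith

/-- Turán's colouring -/
theorem colouring_sharp (n : ℕ) : ∃ c : Fin n → Fin n → Fin 3, (∀ x y, c x y = c y x) ∧
    Covers (monoTriples c) ∧ (monoTriples c).card = fn n := by
  obtain ⟨g, hg⟩ := LJ.exists_balanced' n
  set c : Fin n → Fin n → Fin 3 := fun x y => col (g x) (g y) with hc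
  have hs : ∀ x y, c x y = c y x := fun x y => col_symm _ _
  have heq : monoTriples c = powersetCard 3 univ \ LJ.turanGraph g := by
    ext e
    by_cases he : e.card = 3
    · obtain ⟨x, y, z, d1, d2, d3, rfl⟩ := card_eq_three.1 he
      rw [mem_monoTriples hs d1 d2 d3, mem_sdiff, mem_powersetCard, LJ.mem_turanGraph g d1 d2 d3]
      unfold Mono
      rw [col_mono]
      simp [he]
    · have h1 : e ∉ monoTriples c := fun h => he (mem_filter.1 h).2.1
      have h2 : e ∉ powersetCard 3 univ \ LJ.turanGraph g := fun h =>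
        he (mem_powersetCard.1 (mem_sdiff.1 h).1).2
      tauto
  have hsub : LJ.turanGraph g ⊆ powersetCard 3 univ := fun e he =>
    mem_powersetCard.2 ⟨subset_univ _, LJ.card_of_turan he⟩
  refine ⟨c, hs, ?_, ?_⟩
  · intro S hS
    obtain ⟨e, he, h3, hn⟩ := LJ.turan_free g S hS
    refine ⟨e, ?_, he⟩
    rw [heq, mem_sdiff, mem_powersetCard]
    exact ⟨⟨subset_univ _, h3⟩, hn⟩
  · have h1 := card_sdiff_add_card_eq_card hsub
    rw [card_powersetCard, card_univ, Fintype.card_fin, ← heq, hg, ← tn_add_fn n] at h1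
    omega

theorem cov_card_le {g : Fin n → Fin 3} (T : Finset (Finset (Fin n))) (hT : T = turanCovering g) :
    ∀ e ∈ T, e.card = 3 := by
  intro e he
  rw [hT] at he
  exact (mem_filter.1 he).2.1

end Pool.Agent.R810.TC
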