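import Mathlib

/-! Colourings of the pairs with two colours in which every four points contain a monochromatic
triple. -/

set_option autoImplicit false
open Finset

namespace Pool.Agent.R810.TC

variable {V : Type*} [DecidableEq V]

/-- every four points contain a monochromatic triple -/
structure Good {κ : Type*} (c : V → V → κ) : Prop where
  symm : ∀ a b : V, c a b = c b a
  four : ∀ a b d e : V, a ≠ b → a ≠ d → a ≠ e → b ≠ d → b ≠ e → d ≠ e →
    (c a b = c a d ∧ c a b = c b d) ∨ (c a b = c a e ∧ c a b = c b e) ∨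
    (c a d = c a e ∧ c a d = c d e) ∨ (c b d = c b e ∧ c b d = c d e)

/-- the points of `U` joined to `v` in the colour `true` -/
def nb (c : V → V → Bool) (U : Finset V) (v : V) : Finset V :=
  U.filter fun y => y ≠ v ∧ c v y = true

theorem mem_nb {c : V → V → Bool} {U : Finset V} {v y : V} :
    y ∈ nb c U v ↔ y ∈ U ∧ y ≠ v ∧ c v y = true := by
  unfold nb
  simp

/-- There is a point all of whose pairs have the same colour. -/
theorem dominating {c : V → V → Bool} (h : Good c) {U : Finset V} (hU : U.Nonempty) :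
    ∃ v ∈ U, ∃ s : Bool, ∀ y ∈ U, y ≠ v → c v y = s := by
  obtain ⟨v, hv, hmax⟩ := exists_max_image U (fun v => (nb c U v).card) hU
  by_cases hall : ∀ y ∈ U, y ≠ v → c v y = true
  · exact ⟨v, hv, true, hall⟩
  · push Not at hall
    obtain ⟨w, hw, wv, hcw⟩ := hall
    have hcw' : c v w = false := by simpa using hcw
    refine ⟨w, hw, false, fun y hy yw => ?_⟩
    by_contra hcy
    have hcy' : c w y = true := by simpa using hcy
    have hyw : c y w = true := by rw [h.symm]; exact hcy'
    have yv : y ≠ v := by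
      rintro rfl
      rw [hyw] at hcw'
      exact absurd hcw' (by decide)
    have hsub : ∀ a ∈ nb c U v, a ≠ y → a ∈ nb c U y := by
      intro a ha hay
      rw [mem_nb] at ha ⊢
      refine ⟨ha.1, hay, ?_⟩
      by_contra hca
      have hca' : c y a = false := by simpa using hca
      have aw : a ≠ w := by
        rintro rfl
        rw [ha.2.2] at hcw'
        exact absurd hcw' (by decide)
      rcases h.four v y a w yv.symm ha.2.1.symm wv.symm hay.symm yw aw with e | e | e | e
      · rw [ha.2.2] at e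
        rw [e.1, hca'] at e
        exact absurd e.2 (by decide)
      · rw [hcw'] at e
        rw [e.1, hyw] at e
        exact absurd e.2 (by decide)
      · rw [ha.2.2, hcw'] at e
        exact absurd e.1 (by decide)
      · rw [hca', hyw] at e
        exact absurd e.1 (by decide)
    have hwN : w ∈ nb c U y := mem_nb.2 ⟨hw, yw.symm, hyw⟩
    have hwv : w ∉ nb c U v := by
      rw [mem_nb, hcw']
      simp
    have hle := hmax y hy
    by_cases hyN : y ∈ nb c U v
    · have hvN : v ∈ nb c U y := mem_nb.2 ⟨hv, yv.symm, by rw [h.symm]; exact (mem_nb.1 hyN).2.2⟩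
      have hs : insert v (insert w ((nb c U v).erase y)) ⊆ nb c U y := by
        intro a ha
        rw [mem_insert, mem_insert, mem_erase] at ha
        rcases ha with rfl | rfl | ⟨h1, h2⟩
        · exact hvN
        · exact hwN
        · exact hsub a h2 h1
      have hc := card_le_card hs
      have h1 : w ∉ (nb c U v).erase y := fun h2 => hwv (mem_of_mem_erase h2)
      have h2 : v ∉ insert w ((nb c U v).erase y) := by
        rw [mem_insert, mem_erase, mem_nb]
        rintro (h3 | h3)
        · exact wv h3.symm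
        · exact h3.2.2.1 rfl
      rw [card_insert_of_notMem h2, card_insert_of_notMem h1, card_erase_of_mem hyN] at hc
      have : 0 < (nb c U v).card := card_pos.2 ⟨y, hyN⟩
      omega
    · have hs : insert w (nb c U v) ⊆ nb c U y := by
        intro a ha
        rw [mem_insert] at ha
        rcases ha with rfl | h1
        · exact hwN
        · exact hsub a h1 fun e => hyN (e ▸ h1)
      have hc := card_le_card hs
      rw [card_insert_of_notMem hwv] at hc
      omega

/-- the number of ordered monochromatic triples of different points of `U` -/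
def mon (c : V → V → Bool) (U : Finset V) : ℤ :=
  ∑ x ∈ U, ∑ y ∈ U, ∑ z ∈ U,
    if x ≠ y ∧ x ≠ z ∧ y ≠ z ∧ c x y = c x z ∧ c x y = c y z then 1 else 0

/-- the number of ordered pairs of a colour -/
def prs (c : V → V → Bool) (U : Finset V) (s : Bool) : ℤ :=
  ∑ x ∈ U, ∑ y ∈ U, if x ≠ y ∧ c x y = s then 1 else 0

theorem prs_add (c : V → V → Bool) (U : Finset V) (s : Bool) :
    prs c U s + prs c U (!s) = (U.card : ℤ) * ((U.card : ℤ) - 1) := by
  unfold prs
  rw [← sum_add_distrib]
  have h1 : ∀ x ∈ U, (∑ y ∈ U, (if x ≠ y ∧ c x y = s then (1 : ℤ) else 0)) +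
      ∑ y ∈ U, (if x ≠ y ∧ c x y = (!s) then (1 : ℤ) else 0) = (U.card : ℤ) - 1 := by
    intro x hx
    rw [← sum_add_distrib]
    have h2 : ∀ y ∈ U, ((if x ≠ y ∧ c x y = s then (1 : ℤ) else 0) +
        if x ≠ y ∧ c x y = (!s) then (1 : ℤ) else 0) = 1 - (if x = y then 1 else 0) := by
      intro y _
      by_cases e : x = y
      · simp [e]
      · cases h3 : c x y <;> cases s <;> simp [e]
    rw [sum_congr rfl h2, sum_sub_distrib, sum_const, nsmul_eq_mul, mul_one,
      sum_ite_eq U x, if_pos hx]
  rw [sum_congr rfl h1, sum_const, nsmul_eq_mul]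

theorem prs_insert {c : V → V → Bool} (hs : ∀ a b, c a b = c b a) {U : Finset V} {v : V}
    (hv : v ∉ U) {s : Bool} (hd : ∀ y ∈ U, c v y = s) (t : Bool) :
    prs c (insert v U) t = prs c U t + 2 * (if t = s then (U.card : ℤ) else 0) := by
  unfold prs
  rw [sum_insert hv, sum_insert hv]
  have h1 : ∀ x ∈ U, ∑ y ∈ insert v U, (if x ≠ y ∧ c x y = t then (1 : ℤ) else 0) =
      (if t = s then 1 else 0) + ∑ y ∈ U, (if x ≠ y ∧ c x y = t then (1 : ℤ) else 0) := by
    intro x hx
    rw [sum_insert hv]
    congr 1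
    have hxv : x ≠ v := fun e => hv (e ▸ hx)
    have : c x v = s := by rw [hs]; exact hd x hx
    simp only [ne_eq, hxv, not_false_eq_true, true_and, this]
    by_cases e : t = s
    · simp [e]
    · simp [e, Ne.symm e]
  rw [sum_congr rfl h1, sum_add_distrib, sum_const, nsmul_eq_mul]
  have h2 : ∑ y ∈ U, (if v ≠ y ∧ c v y = t then (1 : ℤ) else 0) =
      (U.card : ℤ) * (if t = s then 1 else 0) := by
    rw [sum_congr rfl (g := fun _ => if t = s then (1 : ℤ) else 0), sum_const, nsmul_eq_mul]
    intro y hy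
    have hyv : v ≠ y := fun e => hv (e ▸ hy)
    have : c v y = s := hd y hy
    simp only [ne_eq, hyv, not_false_eq_true, true_and, this]
    by_cases e : t = s
    · simp [e]
    · simp [e, Ne.symm e]
  rw [h2]
  simp only [ne_eq, not_true_eq_false, false_and, if_false, zero_add]
  split_ifs <;> ring

theorem mon_insert {c : V → V → Bool} (hs : ∀ a b, c a b = c b a) {U : Finset V} {v : V}
    (hv : v ∉ U) {s : Bool} (hd : ∀ y ∈ U, c v y = s) :
    mon c (insert v U) = mon c U + 3 * prs c U s := by
  set F : V → V → V → ℤ := fun x y z =>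
    if x ≠ y ∧ x ≠ z ∧ y ≠ z ∧ c x y = c x z ∧ c x y = c y z then 1 else 0 with hF
  have e : ∀ W, mon c W = ∑ x ∈ W, ∑ y ∈ W, ∑ z ∈ W, F x y z := fun W => rfl
  rw [e, e]
  have z1 : ∀ y z, F y y z = 0 := by intro y z; simp [hF]
  have z2 : ∀ y z, F y z y = 0 := by intro y z; simp [hF]
  have z3 : ∀ y z, F z y y = 0 := by intro y z; simp [hF]
  have p1 : ∀ y ∈ U, ∀ z ∈ U, F v y z = if y ≠ z ∧ c y z = s then 1 else 0 := by
    intro y hy z hz
    have a1 : v ≠ y := fun e => hv (e ▸ hy)
    have a2 : v ≠ z := fun e => hv (e ▸ hz)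
    simp only [hF, ne_eq, a1, a2, not_false_eq_true, true_and, hd y hy, hd z hz]
    by_cases q : c y z = s
    · simp [q]
    · simp [q, Ne.symm q]
  have p2 : ∀ y ∈ U, ∀ z ∈ U, F y v z = if y ≠ z ∧ c y z = s then 1 else 0 := by
    intro y hy z hz
    have a1 : y ≠ v := fun e => hv (e ▸ hy)
    have a2 : v ≠ z := fun e => hv (e ▸ hz)
    have b1 : c y v = s := by rw [hs]; exact hd y hy
    simp only [hF, ne_eq, a1, a2, not_false_eq_true, true_and, b1, hd z hz, and_true]
    by_cases q : c y z = s
    · simp [q]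
    · simp [q, Ne.symm q]
  have p3 : ∀ y ∈ U, ∀ z ∈ U, F y z v = if y ≠ z ∧ c y z = s then 1 else 0 := by
    intro y hy z hz
    have a1 : y ≠ v := fun e => hv (e ▸ hy)
    have a2 : z ≠ v := fun e => hv (e ▸ hz)
    have b1 : c y v = s := by rw [hs]; exact hd y hy
    have b2 : c z v = s := by rw [hs]; exact hd z hz
    simp only [hF, ne_eq, a1, a2, not_false_eq_true, true_and, b1, b2]
    by_cases q : c y z = s
    · simp [q]
    · simp [q]
  rw [sum_insert hv]
  have q1 : ∑ y ∈ insert v U, ∑ z ∈ insert v U, F v y z = prs c U s := by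
    rw [sum_insert hv]
    have r1 : ∑ z ∈ insert v U, F v v z = 0 := sum_eq_zero fun z _ => z1 v z
    rw [r1, zero_add]
    unfold prs
    refine sum_congr rfl fun y hy => ?_
    rw [sum_insert hv, z2, zero_add]
    exact sum_congr rfl fun z hz => p1 y hy z hz
  have q2 : ∀ x ∈ U, ∑ y ∈ insert v U, ∑ z ∈ insert v U, F x y z =
      (∑ z ∈ U, (if x ≠ z ∧ c x z = s then (1 : ℤ) else 0)) +
      ((∑ y ∈ U, (if x ≠ y ∧ c x y = s then (1 : ℤ) else 0)) + ∑ y ∈ U, ∑ z ∈ U, F x y z) := by
    intro x hx
    rw [sum_insert hv, sum_insert hv, z3, zero_add]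
    congr 1
    · exact sum_congr rfl fun z hz => p2 x hx z hz
    · rw [← sum_add_distrib]
      refine sum_congr rfl fun y hy => ?_
      rw [sum_insert hv, p3 x hx y hy]
  rw [q1, sum_congr rfl q2, sum_add_distrib, sum_add_distrib]
  unfold prs
  ring

/-- **The number of monochromatic triples.** -/
theorem two_bound {c : V → V → Bool} (h : Good c) (U : Finset V) :
    0 ≤ 4 * mon c U - 2 * ((U.card : ℤ) * (U.card - 1) * (U.card - 2)) +
      3 * ((U.card : ℤ) * (U.card - 1)) ∧
    3 * (prs c U true - prs c U false) ^ 2 ≤ 2 * ((U.card : ℤ) - 1) *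
      (4 * mon c U - 2 * ((U.card : ℤ) * (U.card - 1) * (U.card - 2)) +
        3 * ((U.card : ℤ) * (U.card - 1))) := by
  induction hn : U.card generalizing U with
  | zero =>
    have : U = ∅ := card_eq_zero.1 hn
    subst this
    simp [mon, prs]
  | succ m ih =>
    obtain ⟨v, hv, s, hs⟩ := dominating h (card_pos.1 (by omega : 0 < U.card))
    have hins : U = insert v (U.erase v) := (insert_erase hv).symm
    have hc : (U.erase v).card = m := by
      rw [card_erase_of_mem hv, hn]
      rfl
    have hd : ∀ y ∈ U.erase v, c v y = s := fun y hy => hs y (mem_of_mem_erase hy) (ne_of_mem_erase hy)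
    have hvn : v ∉ U.erase v := notMem_erase v U
    obtain ⟨i1, i2⟩ := ih (U.erase v) hc
    have m1 := mon_insert h.symm hvn hd
    have m2 := prs_insert h.symm hvn hd true
    have m3 := prs_insert h.symm hvn hd false
    have m4 := prs_add c (U.erase v) s
    rw [← hins] at m1 m2 m3
    rw [hc] at m2 m3 m4
    rw [m1, m2, m3]
    set P := prs c (U.erase v) true
    set N := prs c (U.erase v) false
    set M := mon c (U.erase v)
    have hm0 : (0 : ℤ) ≤ m := Int.natCast_nonneg m
    push_cast
    cases s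
    · simp only [Bool.not_false] at m4
      have e4 : 2 * N = (m : ℤ) * (m - 1) - (P - N) := by linarith
      simp only [Bool.true_eq_false, if_false, if_true, mul_zero, add_zero]
      have key : 4 * (M + 3 * N) - 2 * (((m : ℤ) + 1) * ((m : ℤ) + 1 - 1) * ((m : ℤ) + 1 - 2)) +
          3 * (((m : ℤ) + 1) * ((m : ℤ) + 1 - 1)) =
          (4 * M - 2 * ((m : ℤ) * (m - 1) * (m - 2)) + 3 * ((m : ℤ) * (m - 1))) -
            6 * (P - N) + 6 * m := by
        linear_combination 6 * e4
      rw [key]
      set X := 4 * M - 2 * ((m : ℤ) * (m - 1) * (m - 2)) + 3 * ((m : ℤ) * (m - 1))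
      have g2 : 3 * (P - (N + 2 * m)) ^ 2 ≤ 2 * ((m : ℤ) + 1 - 1) * (X - 6 * (P - N) + 6 * m) := by
        nlinarith
      refine ⟨?_, g2⟩
      rcases Nat.eq_zero_or_pos m with h0 | hp
      · subst h0
        have hU0 : U.erase v = ∅ := card_eq_zero.1 hc
        have hP : P = 0 := by simp [P, prs, hU0]
        have hN : N = 0 := by simp [N, prs, hU0]
        rw [hP, hN]
        simpa using i1
      · have hp' : (0 : ℤ) < m := by exact_mod_cast hp
        by_contra hcon
        push Not at hcon
        have : 2 * ((m : ℤ) + 1 - 1) * (X - 6 * (P - N) + 6 * m) < 0 := by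
          have : 0 < 2 * ((m : ℤ) + 1 - 1) := by linarith
          exact mul_neg_of_pos_of_neg this hcon
        nlinarith [sq_nonneg (P - (N + 2 * m))]
    · simp only [Bool.not_true] at m4
      have e4 : 2 * P = (m : ℤ) * (m - 1) + (P - N) := by linarith
      simp only [Bool.false_eq_true, if_false, if_true, mul_zero, add_zero]
      have key : 4 * (M + 3 * P) - 2 * (((m : ℤ) + 1) * ((m : ℤ) + 1 - 1) * ((m : ℤ) + 1 - 2)) +
          3 * (((m : ℤ) + 1) * ((m : ℤ) + 1 - 1)) =
          (4 * M - 2 * ((m : ℤ) * (m - 1) * (m - 2)) + 3 * ((m : ℤ) * (m - 1))) +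
            6 * (P - N) + 6 * m := by
        linear_combination 6 * e4
      rw [key]
      set X := 4 * M - 2 * ((m : ℤ) * (m - 1) * (m - 2)) + 3 * ((m : ℤ) * (m - 1))
      have g2 : 3 * (P + 2 * m - N) ^ 2 ≤ 2 * ((m : ℤ) + 1 - 1) * (X + 6 * (P - N) + 6 * m) := by
        nlinarith
      refine ⟨?_, g2⟩
      rcases Nat.eq_zero_or_pos m with h0 | hp
      · subst h0
        have hU0 : U.erase v = ∅ := card_eq_zero.1 hc
        have hP : P = 0 := by simp [P, prs, hU0]
        have hN : N = 0 := by simp [N, prs, hU0]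
        rw [hP, hN]
        simpa using i1
      · have hp' : (0 : ℤ) < m := by exact_mod_cast hp
        by_contra hcon
        push Not at hcon
        have : 2 * ((m : ℤ) + 1 - 1) * (X + 6 * (P - N) + 6 * m) < 0 := by
          have : 0 < 2 * ((m : ℤ) + 1 - 1) := by linarith
          exact mul_neg_of_pos_of_neg this hcon
        nlinarith [sq_nonneg (P + 2 * m - N)]

end Pool.Agent.R810.TC
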