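import Pool.Agent.R810.TC.Turan
import Pool.Agent.R810.TC.Two

/-! Reduction to two colours. -/

set_option autoImplicit false
open Finset

namespace Pool.Agent.R810.TC

variable {V κ : Type*}

theorem third' : ∀ a b d e : Fin 3, a = b ∨ a = d ∨ b = d ∨ e = a ∨ e = b ∨ e = d := by decide

theorem third (a b d e : Fin 3) (h1 : a ≠ b) (h2 : a ≠ d) (h3 : b ≠ d) (h4 : e ≠ a)
    (h5 : e ≠ b) : e = d := by
  rcases third' a b d e with h | h | h | h | h | h
  · exact absurd h h1
  · exact absurd h h2
  · exact absurd h h3
  · exact absurd h h4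
  · exact absurd h h5
  · exact h

theorem shifts : ∀ j : Fin 3, j + 1 ≠ j + 2 ∧ j + 1 ≠ j ∧ j + 2 ≠ j := by decide

/-- a monochromatic triple -/
def Mono {κ : Type*} (c : V → V → κ) (x y z : V) : Prop := c x y = c x z ∧ c x y = c y z

theorem Good.col {c : V → V → κ} (h : Good c) : Col (Mono c) c where
  four := h.four
  symm := h.symm
  mono _ _ _ _ _ _ hm := hm

variable [DecidableEq V]

/-- a new colouring with a dominating point -/
def apex (v : V) (r : V → V → Bool) (x y : V) : Bool := if x = v ∨ y = v then true else r x y

theorem apex_l (v : V) (r : V → V → Bool) (y : V) : apex v r v y = true := by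
  unfold apex
  simp

theorem apex_r (v : V) (r : V → V → Bool) (y : V) : apex v r y v = true := by
  unfold apex
  simp

theorem apex_n {v : V} (r : V → V → Bool) {x y : V} (hx : x ≠ v) (hy : y ≠ v) :
    apex v r x y = r x y := by
  unfold apex
  simp [hx, hy]

theorem apex_good {c : V → V → κ} (h : Good c) {v : V} {r : V → V → Bool}
    (hr : ∀ a b, r a b = r b a)
    (h1 : ∀ x y z, x ≠ v → y ≠ v → z ≠ v → x ≠ y → x ≠ z → y ≠ z → (Mono r x y z ↔ Mono c x y z))
    (h2 : ∀ x y, x ≠ v → y ≠ v → x ≠ y → r x y = true → Mono c v x y) :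
    Good (apex v r) ∧ ∀ x y z, x ≠ y → x ≠ z → y ≠ z → Mono (apex v r) x y z → Mono c x y z := by
  refine ⟨⟨?_, ?_⟩, ?_⟩
  · intro a b
    unfold apex
    rw [hr a b]
    by_cases e1 : a = v <;> by_cases e2 : b = v <;> simp [e1, e2]
  · intro a b d e ab ad ae bd be de
    by_cases ea : a = v
    · subst ea
      rw [apex_l, apex_l, apex_l, apex_n r ab.symm ad.symm, apex_n r ab.symm ae.symm,
        apex_n r ad.symm ae.symm]
      cases r b d <;> cases r b e <;> cases r d e <;> simp
    · by_cases eb : b = v
      · subst eb
        rw [apex_r, apex_l, apex_l, apex_n r ab bd.symm, apex_n r ab be.symm,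
          apex_n r bd.symm be.symm]
        cases r a d <;> cases r a e <;> cases r d e <;> simp
      · by_cases ed : d = v
        · subst ed
          rw [apex_r, apex_r, apex_l, apex_n r ea eb, apex_n r ea de.symm, apex_n r eb de.symm]
          cases r a b <;> cases r a e <;> cases r b e <;> simp
        · by_cases ee : e = v
          · subst ee
            rw [apex_r, apex_r, apex_r, apex_n r ae be, apex_n r ae de, apex_n r be de]
            cases r a b <;> cases r a d <;> cases r b d <;> simp
          · rw [apex_n r ea eb, apex_n r ea ed, apex_n r ea ee, apex_n r eb ed, apex_n r eb ee,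
              apex_n r ed ee]
            rcases h.four a b d e ab ad ae bd be de with q | q | q | q
            · exact Or.inl ((h1 a b d ea eb ed ab ad bd).2 q)
            · exact Or.inr (Or.inl ((h1 a b e ea eb ee ab ae be).2 q))
            · exact Or.inr (Or.inr (Or.inl ((h1 a d e ea ed ee ad ae de).2 q)))
            · exact Or.inr (Or.inr (Or.inr ((h1 b d e eb ed ee bd be de).2 q)))
  · intro x y z hxy hxz hyz hm
    unfold Mono at hm
    by_cases ex : x = v
    · subst ex
      rw [apex_l, apex_l, apex_n r hxy.symm hxz.symm] at hm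
      exact h2 y z hxy.symm hxz.symm hyz hm.2.symm
    · by_cases ey : y = v
      · subst ey
        rw [apex_r, apex_l, apex_n r hxy hyz.symm] at hm
        have := h2 x z hxy hyz.symm hxz hm.1.symm
        unfold Mono at this ⊢
        rw [h.symm x y]
        exact ⟨this.2, this.1⟩
      · by_cases ez : z = v
        · subst ez
          rw [apex_r, apex_r, apex_n r hxz hyz] at hm
          have := h2 x y hxz hyz hxy hm.1
          unfold Mono at this ⊢
          rw [h.symm x z, h.symm y z]
          exact ⟨this.2.symm, this.2.symm.trans this.1⟩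
        · refine (h1 x y z ex ey ez hxy hxz hyz).1 ?_
          unfold Mono
          rwa [apex_n r ex ey, apex_n r ex ez, apex_n r ey ez] at hm

/-- one class is a single point -/
theorem single {c : V → V → κ} (h : Good c) {K : Fin 3 → κ} {g : V → Fin 3}
    (hK : Function.Injective K) (hF : ∀ z y, z ≠ y → ∃ j, c z y = K j ∧ j ≠ g z ∧ j ≠ g y)
    {i l j : Fin 3} (hil : i ≠ l) (hij : i ≠ j) (hlj : l ≠ j) (ho : ¬ Occ (Mono c) c (K j)) {v : V}
    (hv : g v = i) (hsing : ∀ z, g z = i → z = v) :
    ∃ c' : V → V → Bool, Good c' ∧
      ∀ x y z, x ≠ y → x ≠ z → y ≠ z → Mono c' x y z → Mono c x y z := by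
  classical
  -- colours of the other pairs
  have hcol : ∀ x y, x ≠ v → y ≠ v → x ≠ y → c x y = K i ∨ c x y = K l := by
    intro x y hx hy hxy
    obtain ⟨m, m1, m2, m3⟩ := hF x y hxy
    by_cases e1 : m = i
    · exact Or.inl (by rw [m1, e1])
    · by_cases e2 : m = l
      · exact Or.inr (by rw [m1, e2])
      · exfalso
        have e3 : m = j := third i l j m hil hij hlj e1 e2
        have gx : g x = l := by
          by_contra hh
          have : g x ≠ i := fun e => hx (hsing x e)
          exact m2 (e3.trans (third i l j (g x) hil hij hlj this hh).symm)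
        have gy : g y = l := by
          by_contra hh
          have : g y ≠ i := fun e => hy (hsing y e)
          exact m3 (e3.trans (third i l j (g y) hil hij hlj this hh).symm)
        have cv : ∀ t, t ≠ v → g t = l → c v t = K j := by
          intro t ht hgt
          obtain ⟨q, q1, q2, q3⟩ := hF v t ht.symm
          rw [hv] at q2
          rw [hgt] at q3
          rw [q1, third i l j q hil hij hlj q2 q3]
        have a1 := cv x hx gx
        have a2 := cv y hy gy
        apply ho
        refine ⟨v, x, y, hx.symm, hy.symm, hxy, ⟨?_, ?_⟩, a1⟩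
        · rw [a1, a2]
        · rw [a1, m1, e3]
  refine ⟨apex v fun x y => decide (c x y = K l), apex_good h (fun a b => ?_) ?_ ?_⟩
  · rw [h.symm a b]
  · intro x y z hx hy hz hxy hxz hyz
    have b1 := hcol x y hx hy hxy
    have b2 := hcol x z hx hz hxz
    have b3 := hcol y z hy hz hyz
    have ne : K i ≠ K l := fun e => hil (hK e)
    unfold Mono
    constructor
    · intro hm
      rcases b1 with b1 | b1 <;> rcases b2 with b2 | b2 <;> rcases b3 with b3 | b3 <;>
        simp_all
    · rintro ⟨q1, q2⟩
      exact ⟨congrArg (fun t => decide (t = K l)) q1, congrArg (fun t => decide (t = K l)) q2⟩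
  · intro x y hx hy hxy hr
    have hr' : c x y = K l := by simpa using hr
    obtain ⟨m, m1, m2, m3⟩ := hF x y hxy
    have e1 : m = l := hK (m1.symm.trans hr')
    rw [e1] at m2 m3
    have gx : g x = j := third i l j (g x) hil hij hlj (fun e => hx (hsing x e)) m2.symm
    have gy : g y = j := third i l j (g y) hil hij hlj (fun e => hy (hsing y e)) m3.symm
    have cv : ∀ t, t ≠ v → g t = j → c v t = K l := by
      intro t ht hgt
      obtain ⟨q, q1, q2, q3⟩ := hF v t ht.symm
      rw [hv] at q2
      rw [hgt] at q3
      rw [q1, third i j l q hij hil hlj.symm q2 q3]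
    unfold Mono
    rw [cv x hx gx, cv y hy gy, hr']
    exact ⟨rfl, rfl⟩

/-- **Reduction to two colours.** -/
theorem reduce {c : V → V → κ} (h : Good c)
    (hno : ¬ ∃ k : Fin 3 → κ, Function.Injective k ∧ ∀ i, Occ (Mono c) c (k i)) :
    ∃ c' : V → V → Bool, Good c' ∧
      ∀ x y z, x ≠ y → x ≠ z → y ≠ z → Mono c' x y z → Mono c x y z := by
  classical
  by_cases hthree : ∃ v x y z : V, x ≠ v ∧ y ≠ v ∧ z ≠ v ∧ c v x ≠ c v y ∧ c v x ≠ c v z ∧
      c v y ≠ c v z
  · obtain ⟨v, x, y, z, hx, hy, hz, n1, n2, n3⟩ := hthree
    set a : Fin 3 → V := ![x, y, z] with ha'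
    have hav : ∀ i, a i ≠ v := by
      intro i
      fin_cases i
      · exact hx
      · exact hy
      · exact hz
    have ha : ∀ i j, i ≠ j → c v (a i) ≠ c v (a j) := by
      intro i j hij
      fin_cases i <;> fin_cases j <;> first | exact absurd rfl hij | skip
      · exact n1
      · exact n2
      · exact n1.symm
      · exact n3
      · exact n2.symm
      · exact n3.symm
    refine ⟨apex v fun p q => decide (c p q ≠ c (a 0) (a 1)), apex_good h (fun p q => ?_) ?_ ?_⟩
    · rw [h.symm p q]
    · intro p q r hp hq hr hpq hpr hqr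
      unfold Mono
      constructor
      · intro hm
        by_cases e : c p q = c (a 0) (a 1)
        · simp only [e, ne_eq, not_true_eq_false, decide_false] at hm
          have m1 := hm.1
          have m2 := hm.2
          simp only [eq_comm (a := false), decide_eq_false_iff_not, not_not] at m1 m2
          exact ⟨e.trans m1.symm, e.trans m2.symm⟩
        · simp only [ne_eq, e, not_false_eq_true, decide_true] at hm
          have m1 := hm.1
          have m2 := hm.2
          simp only [eq_comm (a := true), decide_eq_true_eq] at m1 m2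
          exact ⟨h.col.f4 hav ha hp hq hp hr hpq hpr e m1,
            h.col.f4 hav ha hp hq hq hr hpq hqr e m2⟩
      · rintro ⟨q1, q2⟩
        exact ⟨congrArg (fun t => decide (t ≠ c (a 0) (a 1))) q1,
          congrArg (fun t => decide (t ≠ c (a 0) (a 1))) q2⟩
    · intro p q hp hq hpq hr
      have hr' : c p q ≠ c (a 0) (a 1) := by simpa using hr
      have e1 : c v p = c v q := by
        by_contra hh
        exact hr' (h.col.f2 hav ha hp hq hh)
      have e2 : c p q = c v p := by
        rcases h.col.f3 hav ha hp hq hpq e1 with e | e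
        · exact e
        · exact absurd e hr'
      exact ⟨e1, e2.symm⟩
  · have h2 : ∀ v x y z : V, x ≠ v → y ≠ v → z ≠ v →
        c v x = c v y ∨ c v x = c v z ∨ c v y = c v z := by
      intro v x y z hx hy hz
      by_contra hcon
      push Not at hcon
      exact hthree ⟨v, x, y, z, hx, hy, hz, hcon.1, hcon.2.1, hcon.2.2⟩
    by_cases hs : ∃ s : κ, ∀ x, ∃ y, y ≠ x ∧ c x y = s
    · obtain ⟨s, hs⟩ := hs
      have cg : ∀ {p q : κ}, p = q → decide (p ≠ s) = decide (q ≠ s) := fun e => by rw [e]
      refine ⟨fun p q => decide (c p q ≠ s), ⟨fun p q => by rw [h.symm p q], ?_⟩, ?_⟩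
      · intro a b d e ab ad ae bd be de
        rcases h.four a b d e ab ad ae bd be de with q | q | q | q
        · exact Or.inl ⟨cg q.1, cg q.2⟩
        · exact Or.inr (Or.inl ⟨cg q.1, cg q.2⟩)
        · exact Or.inr (Or.inr (Or.inl ⟨cg q.1, cg q.2⟩))
        · exact Or.inr (Or.inr (Or.inr ⟨cg q.1, cg q.2⟩))
      · intro p q r hpq hpr hqr hm
        unfold Mono at hm ⊢
        by_cases e : c p q = s
        · simp only [e, ne_eq, not_true_eq_false, decide_false] at hm
          have m1 := hm.1
          have m2 := hm.2
          simp only [eq_comm (a := false), decide_eq_false_iff_not, not_not] at m1 m2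
          exact ⟨e.trans m1.symm, e.trans m2.symm⟩
        · simp only [ne_eq, e, not_false_eq_true, decide_true] at hm
          have m1 := hm.1
          have m2 := hm.2
          simp only [eq_comm (a := true), decide_eq_true_eq] at m1 m2
          exact ⟨star h.col h2 hs hpq hpr e m1, star h.col h2 hs hpq hqr e m2⟩
    · push Not at hs
      by_cases hV : ∃ x y : V, x ≠ y
      · obtain ⟨K, g, hK, hne, hF⟩ := classes h.col h2 hs hV
        have hj : ∃ j, ¬ Occ (Mono c) c (K j) := by
          by_contra hcon
          push Not at hcon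
          exact hno ⟨K, hK, hcon⟩
        obtain ⟨j, hj⟩ := hj
        obtain ⟨d1, d2, d3⟩ := shifts j
        obtain ⟨v, hv⟩ := hne (j + 1)
        obtain ⟨w, hw⟩ := hne (j + 2)
        by_cases s1 : ∀ z, g z = j + 1 → z = v
        · exact single h hK hF d1 d2 d3 hj hv s1
        · by_cases s2 : ∀ z, g z = j + 2 → z = w
          · exact single h hK hF d1.symm d3 d2 hj hw s2
          · exfalso
            push Not at s1 s2
            obtain ⟨z, z1, z2⟩ := s1
            obtain ⟨y, y1, y2⟩ := s2
            -- the colours inside the two classes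
            have inside : ∀ i l, i ≠ l → i ≠ j → l ≠ j → (∃ t, g t = l) → ∀ p q, p ≠ q →
                g p = i → g q = i → c p q = K l := by
              rintro i l hil hij hlj ⟨t, ht⟩ p q hpq hp hq
              obtain ⟨m, m1, m2, m3⟩ := hF p q hpq
              rw [hp] at m2
              by_cases e : m = l
              · rw [m1, e]
              · exfalso
                have e3 : m = j := third i l j m hil hij hlj m2 e
                have cr : ∀ a, g a = i → a ≠ t ∧ c a t = K j := by
                  intro a ha
                  have hat : a ≠ t := by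
                    rintro rfl
                    exact hil (ha.symm.trans ht)
                  obtain ⟨q', q1, q2, q3⟩ := hF a t hat
                  rw [ha] at q2
                  rw [ht] at q3
                  exact ⟨hat, by rw [q1, third i l j q' hil hij hlj q2 q3]⟩
                apply hj
                refine ⟨p, q, t, hpq, (cr p hp).1, (cr q hq).1, ⟨?_, ?_⟩, by rw [m1, e3]⟩
                · rw [m1, e3, (cr p hp).2]
                · rw [m1, e3, (cr q hq).2]
            have q1 : Q c K g (j + 1) (j + 2) :=
              ⟨z, v, z2, z1, hv, inside _ _ d1 d2 d3 ⟨w, hw⟩ z v z2 z1 hv⟩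
            have q2 : Q c K g (j + 2) (j + 1) :=
              ⟨y, w, y2, y1, hw, inside _ _ d1.symm d3 d2 ⟨v, hv⟩ y w y2 y1 hw⟩
            exact QB h.col hK hF d1 q1 q2
      · push Not at hV
        refine ⟨fun _ _ => true, ⟨fun _ _ => rfl, ?_⟩, ?_⟩
        · intro a b _ _ ab
          exact absurd (hV a b) ab
        · intro x y _ hxy
          exact absurd (hV x y) hxy

end Pool.Agent.R810.TC
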