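import Pool.Agent.R810.TC.Samp

/-! The asymptotic bound. -/

set_option autoImplicit false
open Finset
open scoped Classical

namespace Pool.Agent.R810.TC

open Pool.Agent.R810.LJ (tn ind ind_t ind_f ind_nonneg six_le ord_le_six ordered_le aa bb
  dist_of swap_set rot_set tn_le key3)

variable {n : ℕ} {I : Type*} [Fintype I] [DecidableEq I]

theorem ind_zero {p : Prop} (h : ind p = 0) : ¬ p := by
  intro hp; rw [ind_t hp] at h; norm_num at h

theorem sum_triple {J : Type*} [Fintype J] (F : J → J → J → ℤ) :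
    ∑ x, ∑ y, ∑ z, F x y z = ∑ t : J × J × J, F t.1 t.2.1 t.2.2 := by
  rw [Fintype.sum_prod_type]
  refine sum_congr rfl fun x _ => ?_
  rw [Fintype.sum_prod_type]

/-- all pairs in `e` have the colour `s` -/
def MonoIn {κ : Type*} (c : Fin n → Fin n → κ) (s : κ) (e : Finset (Fin n)) : Prop :=
  ∀ x ∈ e, ∀ y ∈ e, x ≠ y → c x y = s

/-- the triples which are not monochromatic -/
noncomputable def badT (T : Finset (Finset (Fin n))) (c : Fin n → Fin n → Fin 3) :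
    Finset (Finset (Fin n)) := T.filter fun e => ∀ s, ¬ MonoIn c s e

/-- the triples of a colour -/
noncomputable def colT (T : Finset (Finset (Fin n))) (c : Fin n → Fin n → Fin 3) (s : Fin 3) :
    Finset (Finset (Fin n)) := T.filter fun e => MonoIn c s e

/-- reasons why a map is bad -/
noncomputable def bet (T : Finset (Finset (Fin n))) (c : Fin n → Fin n → Fin 3) (f : I → Fin n)
    (t : I × I × I) : ℤ :=
  ind (f t.1 = f t.2.1) + ind (({f t.1, f t.2.1, f t.2.2} : Finset (Fin n)) ∈ badT T c)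

theorem bet_nonneg (T : Finset (Finset (Fin n))) (c : Fin n → Fin n → Fin 3) (f : I → Fin n)
    (t : I × I × I) : 0 ≤ bet T c f t := by
  unfold bet
  have h1 := ind_nonneg (f t.1 = f t.2.1)
  have h2 := ind_nonneg (({f t.1, f t.2.1, f t.2.2} : Finset (Fin n)) ∈ badT T c)
  linarith

/-- a colour which does not occur -/
noncomputable def gam {r : ℕ} (T : Finset (Finset (Fin n))) (c : Fin n → Fin n → Fin 3)
    (f : Fin r × Fin 3 → Fin n) (s : Fin 3) : ℤ :=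
  ind (∀ q, ¬ (({f (q, 0), f (q, 1), f (q, 2)} : Finset (Fin n)) ∈ colT T c s))

theorem one_map {r : ℕ} (hr : 1 ≤ r) {T : Finset (Finset (Fin n))} (h3 : ∀ e ∈ T, e.card = 3)
    (hT : Covers T) {c : Fin n → Fin n → Fin 3} (hs : ∀ x y, c x y = c y x)
    (f : Fin r × Fin 3 → Fin n) {A : ℤ} (hA0 : 0 ≤ A)
    (hA : A ≤ ((DI (Fin r × Fin 3)).card : ℤ) - 6 * (tn (3 * r) : ℤ)) :
    A * (1 - ∑ t ∈ DI (Fin r × Fin 3), bet T c f t - ∑ s, gam T c f s) ≤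
      ∑ t ∈ DI (Fin r × Fin 3), ind (({f t.1, f t.2.1, f t.2.2} : Finset (Fin n)) ∈ T) := by
  have hb0 : 0 ≤ ∑ t ∈ DI (Fin r × Fin 3), bet T c f t := sum_nonneg fun t _ => bet_nonneg T c f t
  have hg0 : ∀ s ∈ (univ : Finset (Fin 3)), 0 ≤ gam T c f s := fun s _ => ind_nonneg _
  have hg0' : 0 ≤ ∑ s, gam T c f s := sum_nonneg hg0
  have hN0 : 0 ≤ ∑ t ∈ DI (Fin r × Fin 3),
      ind (({f t.1, f t.2.1, f t.2.2} : Finset (Fin n)) ∈ T) := sum_nonneg fun t _ => ind_nonneg _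
  by_cases hz : ∑ t ∈ DI (Fin r × Fin 3), bet T c f t + ∑ s, gam T c f s = 0
  · have z1 : ∑ t ∈ DI (Fin r × Fin 3), bet T c f t = 0 := by linarith
    have z2 : ∑ s, gam T c f s = 0 := by linarith
    rw [z1, z2, sub_zero, sub_zero, mul_one]
    have y1 := (sum_eq_zero_iff_of_nonneg fun t _ => bet_nonneg T c f t).1 z1
    have y2 := (sum_eq_zero_iff_of_nonneg hg0).1 z2
    have cI : Fintype.card (Fin r × Fin 3) = 3 * r := by simp [mul_comm]
    have third : ∀ a b : Fin r × Fin 3, a ≠ b → ∃ d, a ≠ d ∧ b ≠ d := by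
      intro a b hab
      have hc : ((univ.erase a).erase b).card = 3 * r - 1 - 1 := by
        rw [card_erase_of_mem (mem_erase.2 ⟨hab.symm, mem_univ _⟩),
          card_erase_of_mem (mem_univ _), card_univ, cI]
      obtain ⟨l, hl⟩ : ((univ.erase a).erase b).Nonempty := card_pos.1 (by omega)
      exact ⟨l, (mem_erase.1 (mem_erase.1 hl).2).1.symm, (mem_erase.1 hl).1.symm⟩
    have hbz : ∀ t ∈ DI (Fin r × Fin 3), f t.1 ≠ f t.2.1 ∧
        ¬ (({f t.1, f t.2.1, f t.2.2} : Finset (Fin n)) ∈ badT T c) := by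
      intro t ht
      have := y1 t ht
      unfold bet at this
      have h1 := ind_nonneg (f t.1 = f t.2.1)
      have h2 := ind_nonneg (({f t.1, f t.2.1, f t.2.2} : Finset (Fin n)) ∈ badT T c)
      exact ⟨ind_zero (by linarith), ind_zero (by linarith)⟩
    have hinj : ∀ a b : Fin r × Fin 3, a ≠ b → f a ≠ f b := by
      intro a b hab
      obtain ⟨d, had, hbd⟩ := third a b hab
      exact (hbz (a, b, d) (mem_DI.2 ⟨hab, had, hbd⟩)).1
    have hmono : ∀ x y z, x ≠ y → x ≠ z → y ≠ z →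
        ({f x, f y, f z} : Finset (Fin n)) ∈ T → Mono c (f x) (f y) (f z) := by
      intro x y z hxy hxz hyz he
      have h1 := (hbz (x, y, z) (mem_DI.2 ⟨hxy, hxz, hyz⟩)).2
      have h2 : IsMono c {f x, f y, f z} := by
        by_contra hcon
        apply h1
        unfold badT
        rw [mem_filter]
        exact ⟨he, fun s hs' => hcon ⟨s, hs'⟩⟩
      exact (isMono_iff hs (hinj x y hxy) (hinj x z hxz) (hinj y z hyz)).1 h2
    have hcol : Col (fun x y z => ({f x, f y, f z} : Finset (Fin n)) ∈ T)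
        (fun x y => c (f x) (f y)) := by
      refine ⟨?_, fun a b => hs _ _, fun x y z hxy hxz hyz he => hmono x y z hxy hxz hyz he⟩
      intro a b d e ab ad ae bd be de
      exact four_T h3 hT _ _ _ _ (hinj a b ab) (hinj a d ad) (hinj a e ae) (hinj b d bd)
        (hinj b e be) (hinj d e de)
    have hocc : ∀ s : Fin 3, Occ (fun x y z => ({f x, f y, f z} : Finset (Fin n)) ∈ T)
        (fun x y => c (f x) (f y)) s := by
      intro s
      have h1 := ind_zero (y2 s (mem_univ s))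
      push Not at h1
      obtain ⟨q, hq⟩ := h1
      unfold colT at hq
      rw [mem_filter] at hq
      have d1 : ((q, 0) : Fin r × Fin 3) ≠ (q, 1) := by simp
      have d2 : ((q, 0) : Fin r × Fin 3) ≠ (q, 2) := by simp
      have d3 : ((q, 1) : Fin r × Fin 3) ≠ (q, 2) := by simp
      exact ⟨(q, 0), (q, 1), (q, 2), d1, d2, d3, hq.1,
        hq.2 _ (by simp) _ (by simp) (hinj _ _ d1)⟩
    obtain ⟨K, g, -, -, -, hg⟩ := turan_of hcol (k := id) Function.injective_id hocc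
    set P : Fin r × Fin 3 → Fin r × Fin 3 → Fin r × Fin 3 → Prop := fun x y z =>
      (x ≠ y ∧ x ≠ z ∧ y ≠ z) ∧ ({f x, f y, f z} : Finset (Fin n)) ∉ T with hP
    have hord := ordered_le g P (fun x y z h => h.1) ?_
    · rw [cI] at hord
      have e1 : ∑ x, ∑ y, ∑ z, ind (P x y z) = ∑ t ∈ DI (Fin r × Fin 3),
          (1 - ind (({f t.1, f t.2.1, f t.2.2} : Finset (Fin n)) ∈ T)) := by
        have e2 : ∑ x, ∑ y, ∑ z, ind (P x y z) =
            ∑ t : (Fin r × Fin 3) × (Fin r × Fin 3) × (Fin r × Fin 3),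
              ind (P t.1 t.2.1 t.2.2) := sum_triple fun x y z => ind (P x y z)
        rw [e2]
        unfold DI
        rw [sum_filter]
        refine sum_congr rfl fun t _ => ?_
        by_cases h5 : t.1 ≠ t.2.1 ∧ t.1 ≠ t.2.2 ∧ t.2.1 ≠ t.2.2
        · rw [if_pos h5]
          by_cases h6 : ({f t.1, f t.2.1, f t.2.2} : Finset (Fin n)) ∈ T
          · rw [ind_t h6, ind_f (fun h7 : P t.1 t.2.1 t.2.2 => h7.2 h6)]
            norm_num
          · rw [ind_f h6, ind_t (show P t.1 t.2.1 t.2.2 from ⟨h5, h6⟩)]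
            norm_num
        · rw [if_neg h5, ind_f (fun h7 : P t.1 t.2.1 t.2.2 => h5 h7.1)]
      rw [e1, sum_sub_distrib, sum_const, nsmul_eq_mul, mul_one] at hord
      linarith
    · intro x y z hPx
      obtain ⟨⟨d1, d2, d3⟩, hnT⟩ := hPx
      refine key3 (g x) (g y) (g z) ?_ ?_ ?_
      · rintro ⟨h5, h6⟩
        exact hnT (hg x y z d1 d2 d3 h5 h6)
      · rintro ⟨h5, h6⟩
        apply hnT
        rw [rot_set]
        exact hg y z x d3 d1.symm d2.symm h5 h6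
      · rintro ⟨h5, h6⟩
        apply hnT
        rw [rot_set, rot_set]
        exact hg z x y d2.symm d3.symm d1 h5 h6
  · have h1 : 1 ≤ ∑ t ∈ DI (Fin r × Fin 3), bet T c f t + ∑ s, gam T c f s := by
      have : 0 ≤ ∑ t ∈ DI (Fin r × Fin 3), bet T c f t + ∑ s, gam T c f s := by linarith
      omega
    nlinarith

/-- the sum over all maps -/
theorem all_maps {r : ℕ} (hr : 1 ≤ r) {T : Finset (Finset (Fin n))} (h3 : ∀ e ∈ T, e.card = 3)
    (hT : Covers T) {c : Fin n → Fin n → Fin 3} (hs : ∀ x y, c x y = c y x) {A : ℤ} (hA0 : 0 ≤ A)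
    (hA : A ≤ ((DI (Fin r × Fin 3)).card : ℤ) - 6 * (tn (3 * r) : ℤ)) :
    A * ((n : ℤ) ^ (3 * r) - ((DI (Fin r × Fin 3)).card : ℤ) * ((n : ℤ) ^ (3 * r - 3) * (n : ℤ) ^ 2 +
      (n : ℤ) ^ (3 * r - 3) * (6 * ((badT T c).card : ℤ))) -
      ∑ s, ((n : ℤ) ^ 3 - ∑ x : Fin n, ∑ y : Fin n, ∑ z : Fin n,
        ind (({x, y, z} : Finset (Fin n)) ∈ colT T c s)) ^ r) ≤
      ((DI (Fin r × Fin 3)).card : ℤ) * ((n : ℤ) ^ (3 * r - 3) * (6 * (T.card : ℤ))) := by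
  have cI : Fintype.card (Fin r × Fin 3) = 3 * r := by simp [mul_comm]
  have e1 : ∑ f : Fin r × Fin 3 → Fin n, ∑ t ∈ DI (Fin r × Fin 3),
      ind (({f t.1, f t.2.1, f t.2.2} : Finset (Fin n)) ∈ T) =
      ((DI (Fin r × Fin 3)).card : ℤ) * ((n : ℤ) ^ (3 * r - 3) *
        ∑ x : Fin n, ∑ y : Fin n, ∑ z : Fin n, ind (({x, y, z} : Finset (Fin n)) ∈ T)) := by
    rw [sum_comm, ← nsmul_eq_mul, ← sum_const]
    refine sum_congr rfl fun t ht => ?_
    obtain ⟨d1, d2, d3⟩ := mem_DI.1 ht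
    have := sum3' d1 d2 d3 (fun x y z : Fin n => ind (({x, y, z} : Finset (Fin n)) ∈ T))
    rw [Fintype.card_fin, cI] at this
    exact this
  have e2 : ∑ f : Fin r × Fin 3 → Fin n, ∑ t ∈ DI (Fin r × Fin 3), bet T c f t =
      ((DI (Fin r × Fin 3)).card : ℤ) * ((n : ℤ) ^ (3 * r - 3) * (n : ℤ) ^ 2 +
      (n : ℤ) ^ (3 * r - 3) * ∑ x : Fin n, ∑ y : Fin n, ∑ z : Fin n,
        ind (({x, y, z} : Finset (Fin n)) ∈ badT T c)) := by
    rw [sum_comm, ← nsmul_eq_mul, ← sum_const]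
    refine sum_congr rfl fun t ht => ?_
    obtain ⟨d1, d2, d3⟩ := mem_DI.1 ht
    unfold bet
    rw [sum_add_distrib]
    have s1 := sum3' d1 d2 d3 (fun x y _ : Fin n => ind (x = y))
    have s2 := sum3' d1 d2 d3 (fun x y z : Fin n => ind (({x, y, z} : Finset (Fin n)) ∈ badT T c))
    rw [Fintype.card_fin, cI] at s1 s2
    have u1 : ∑ x : Fin n, ∑ y : Fin n, ∑ _z : Fin n, ind (x = y) = (n : ℤ) ^ 2 := by
      have : ∀ x y : Fin n, ∑ _z : Fin n, ind (x = y) = if x = y then (n : ℤ) else 0 := by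
        intro x y
        rw [sum_const, card_univ, Fintype.card_fin, nsmul_eq_mul]
        unfold ind
        split_ifs <;> simp
      rw [sum_congr rfl fun x _ => sum_congr rfl fun y _ => this x y]
      rw [sum_congr rfl fun x _ => by rw [sum_ite_eq univ x, if_pos (mem_univ _)]]
      rw [sum_const, card_univ, Fintype.card_fin, nsmul_eq_mul]
      ring
    rw [s1, s2, u1]
  have e3 : ∑ f : Fin r × Fin 3 → Fin n, ∑ s, gam T c f s =
      ∑ s, ((n : ℤ) ^ 3 - ∑ x : Fin n, ∑ y : Fin n, ∑ z : Fin n,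
        ind (({x, y, z} : Finset (Fin n)) ∈ colT T c s)) ^ r := by
    rw [sum_comm]
    refine sum_congr rfl fun s _ => ?_
    unfold gam
    have := sum_block (V := Fin n) r (fun x y z => ({x, y, z} : Finset (Fin n)) ∈ colT T c s)
    rw [Fintype.card_fin] at this
    exact this
  have e4 := sum_le_sum fun (f : Fin r × Fin 3 → Fin n) (_ : f ∈ univ) =>
    one_map hr h3 hT hs f hA0 hA
  rw [e1, ← mul_sum, sum_sub_distrib, sum_sub_distrib, e2, e3, sum_const, card_univ,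
    Fintype.card_fun, Fintype.card_fin, cI, nsmul_eq_mul, mul_one] at e4
  push_cast at e4
  have hT6 := ord_le_six h3
  have hB3 : ∀ e ∈ badT T c, e.card = 3 := fun e he => h3 e (mem_filter.1 he).1
  have hB6 := ord_le_six hB3
  set OT := ∑ x : Fin n, ∑ y : Fin n, ∑ z : Fin n, ind (({x, y, z} : Finset (Fin n)) ∈ T)
  set OB := ∑ x : Fin n, ∑ y : Fin n, ∑ z : Fin n, ind (({x, y, z} : Finset (Fin n)) ∈ badT T c)
  have hn : (0 : ℤ) ≤ (n : ℤ) ^ (3 * r - 3) := by positivity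
  have hD : (0 : ℤ) ≤ ((DI (Fin r × Fin 3)).card : ℤ) := Int.natCast_nonneg _
  have m1 : ((DI (Fin r × Fin 3)).card : ℤ) * ((n : ℤ) ^ (3 * r - 3) * OT) ≤
      ((DI (Fin r × Fin 3)).card : ℤ) * ((n : ℤ) ^ (3 * r - 3) * (6 * (T.card : ℤ))) :=
    mul_le_mul_of_nonneg_left (mul_le_mul_of_nonneg_left hT6 hn) hD
  have m2 : ((DI (Fin r × Fin 3)).card : ℤ) * ((n : ℤ) ^ (3 * r - 3) * (n : ℤ) ^ 2 +
      (n : ℤ) ^ (3 * r - 3) * OB) ≤ ((DI (Fin r × Fin 3)).card : ℤ) *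
      ((n : ℤ) ^ (3 * r - 3) * (n : ℤ) ^ 2 + (n : ℤ) ^ (3 * r - 3) * (6 * ((badT T c).card : ℤ))) := by
    refine mul_le_mul_of_nonneg_left ?_ hD
    have := mul_le_mul_of_nonneg_left hB6 hn
    linarith
  refine le_trans ?_ (e4.trans m1)
  exact mul_le_mul_of_nonneg_left (by linarith) hA0

theorem choose_r {δ η : ℝ} (hδ : 0 < δ) (hδ1 : 6 * δ < 1) (hη : 0 < η) :
    ∃ r : ℕ, 3 ≤ r ∧ 4 / η ≤ r ∧ 3 * (1 - 6 * δ) ^ r ≤ η / 4 := by
  have hlim := tendsto_pow_atTop_nhds_zero_of_lt_one (r := 1 - 6 * δ) (by linarith) (by linarith)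
  have h1 : ∀ᶠ m : ℕ in Filter.atTop, (1 - 6 * δ) ^ m < η / 12 :=
    hlim.eventually (gt_mem_nhds (by positivity))
  have h2 : ∀ᶠ m : ℕ in Filter.atTop, 4 / η ≤ (m : ℝ) :=
    Filter.tendsto_atTop.1 tendsto_natCast_atTop_atTop _
  have h3 : ∀ᶠ m : ℕ in Filter.atTop, 3 ≤ m := Filter.eventually_ge_atTop 3
  obtain ⟨m, e1, e2, e3⟩ := (h1.and (h2.and h3)).exists
  exact ⟨m, e3, e2, by linarith⟩

theorem asym_aux {δ η : ℝ} (hδ : 0 < δ) (hδ1 : 6 * δ < 1) (hη : 0 < η) :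
    ∃ ε : ℝ, 0 < ε ∧ ∃ n0 : ℕ, ∀ n, n0 ≤ n → ∀ T : Finset (Finset (Fin n)),
      (∀ e ∈ T, e.card = 3) → Covers T → ∀ c : Fin n → Fin n → Fin 3, (∀ x y, c x y = c y x) →
      ((badT T c).card : ℝ) ≤ ε * (n : ℝ) ^ 3 → (∀ s, δ * (n : ℝ) ^ 3 ≤ ((colT T c s).card : ℝ)) →
      (4 / 9 - η) * (n : ℝ) ^ 3 ≤ 6 * (T.card : ℝ) := by
  obtain ⟨r, hr3, hrη, hrδ⟩ := choose_r hδ hδ1 hη
  have r3 : (3 : ℝ) ≤ r := by exact_mod_cast hr3
  set k : ℝ := 3 * (r : ℝ) with hk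
  have k9 : 9 ≤ k := by rw [hk]; linarith
  have kpos : 0 < k := by linarith
  refine ⟨η / (48 * k ^ 3), by positivity, max 1 ⌈8 * k ^ 3 / η⌉₊, ?_⟩
  intro n hn T h3 hT c hs hbad hcol
  set ε : ℝ := η / (48 * k ^ 3) with hε
  have hεk : k ^ 3 * (6 * ε) = η / 8 := by
    rw [hε]
    field_simp
    ring
  have n1 : 1 ≤ n := (le_max_left _ _).trans hn
  have n2 : 8 * k ^ 3 / η ≤ n :=
    (Nat.le_ceil _).trans (by exact_mod_cast (le_max_right _ _).trans hn)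
  have npos : (0 : ℝ) < n := by exact_mod_cast n1
  have hkn : k ^ 3 ≤ η / 8 * n := by
    rw [div_le_iff₀ hη] at n2
    linarith
  have cI : Fintype.card (Fin r × Fin 3) = 3 * r := by simp [mul_comm]
  have hD1 := DI_card_le (I := Fin r × Fin 3)
  have hD2 := DI_card_ge (I := Fin r × Fin 3)
  rw [cI] at hD1 hD2
  have htn := tn_le (3 * r)
  have hA0 : 0 ≤ ((DI (Fin r × Fin 3)).card : ℤ) - 6 * (tn (3 * r) : ℤ) := by
    push_cast at hD2 htn
    have hr' : (3 : ℤ) ≤ r := by exact_mod_cast hr3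
    have h5 : 9 * (6 * (tn (3 * r) : ℤ)) ≤ 5 * (3 * (r : ℤ)) ^ 3 := by linarith
    have h6 : 5 * (3 * (r : ℤ)) ^ 3 ≤ 9 * ((3 * (r : ℤ)) ^ 3 - 3 * (3 * (r : ℤ)) ^ 2) := by
      nlinarith [mul_nonneg (sq_nonneg (r : ℤ)) (by linarith : (0 : ℤ) ≤ r - 3)]
    linarith
  have hmain := all_maps (r := r) (by omega) h3 hT hs hA0 le_rfl
  set Az : ℤ := ((DI (Fin r × Fin 3)).card : ℤ) - 6 * (tn (3 * r) : ℤ) with hAz
  have hmainR : (Az : ℝ) * ((n : ℝ) ^ (3 * r) - ((DI (Fin r × Fin 3)).card : ℝ) *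
      ((n : ℝ) ^ (3 * r - 3) * (n : ℝ) ^ 2 +
      (n : ℝ) ^ (3 * r - 3) * (6 * ((badT T c).card : ℝ))) -
      ∑ s, ((n : ℝ) ^ 3 - ((∑ x : Fin n, ∑ y : Fin n, ∑ z : Fin n,
        ind (({x, y, z} : Finset (Fin n)) ∈ colT T c s) : ℤ) : ℝ)) ^ r) ≤
      ((DI (Fin r × Fin 3)).card : ℝ) * ((n : ℝ) ^ (3 * r - 3) * (6 * (T.card : ℝ))) := by
    exact_mod_cast hmain
  set d : ℝ := ((DI (Fin r × Fin 3)).card : ℝ) with hd
  have hd1 : d ≤ k ^ 3 := by
    have : ((DI (Fin r × Fin 3)).card : ℝ) ≤ ((3 * r : ℕ) : ℝ) ^ 3 := by exact_mod_cast hD1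
    push_cast at this
    exact this
  have hd2 : k ^ 3 - 3 * k ^ 2 ≤ d := by
    have : ((3 * r : ℕ) : ℝ) ^ 3 - 3 * ((3 * r : ℕ) : ℝ) ^ 2 ≤ ((DI (Fin r × Fin 3)).card : ℝ) := by
      exact_mod_cast hD2
    push_cast at this
    exact this
  have htnR : 54 * (tn (3 * r) : ℝ) ≤ 5 * k ^ 3 := by
    have : 54 * (tn (3 * r) : ℝ) ≤ 5 * ((3 * r : ℕ) : ℝ) ^ 3 := by exact_mod_cast htn
    push_cast at this
    exact this
  have hAR : (Az : ℝ) = d - 6 * (tn (3 * r) : ℝ) := by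
    rw [hAz]
    push_cast
    rfl
  have hA0R : (0 : ℝ) ≤ Az := by exact_mod_cast hA0
  have dpos : 0 < d := by
    have : 0 < k ^ 3 - 3 * k ^ 2 := by
      have e : k ^ 3 - 3 * k ^ 2 = k ^ 2 * (k - 3) := by ring
      rw [e]
      have : 0 < k - 3 := by linarith
      positivity
    linarith
  have hAd : (Az : ℝ) ≤ d := by
    rw [hAR]
    have : (0 : ℝ) ≤ tn (3 * r) := Nat.cast_nonneg _
    linarith
  -- `A ≥ (4/9 - η/2) d`
  have hA1 : (4 / 9 - η / 2) * d ≤ Az := by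
    rw [hAR]
    have e1 : 12 ≤ η * k := by
      have h5 := mul_le_mul_of_nonneg_left hrη hη.le
      have e3 : η * (4 / η) = 4 := by field_simp
      rw [hk]
      linarith
    have e2 : (5 / 9) * k ^ 3 ≤ (5 / 9 + η / 2) * (k ^ 3 - 3 * k ^ 2) := by
      have : 0 ≤ k ^ 2 * (η * k - 12) := mul_nonneg (by positivity) (by linarith)
      have h7 : 0 ≤ k ^ 2 * (η * (k - 9)) := by
        have : 0 ≤ k - 9 := by linarith
        positivity
      nlinarith [sq_nonneg k]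
    have e3 : (5 / 9 + η / 2) * (k ^ 3 - 3 * k ^ 2) ≤ (5 / 9 + η / 2) * d :=
      mul_le_mul_of_nonneg_left hd2 (by positivity)
    linarith
  -- colours
  have hgam : ∀ s : Fin 3, ((n : ℝ) ^ 3 - ((∑ x : Fin n, ∑ y : Fin n, ∑ z : Fin n,
        ind (({x, y, z} : Finset (Fin n)) ∈ colT T c s) : ℤ) : ℝ)) ^ r ≤
        (1 - 6 * δ) ^ r * (n : ℝ) ^ (3 * r) := by
    intro s
    have h5 := six_le (H := colT T c s) fun e he => h3 e (mem_filter.1 he).1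
    have h6 : 6 * ((colT T c s).card : ℝ) ≤ ((∑ x : Fin n, ∑ y : Fin n, ∑ z : Fin n,
        ind (({x, y, z} : Finset (Fin n)) ∈ colT T c s) : ℤ) : ℝ) := by exact_mod_cast h5
    have h7 := hcol s
    have h8 : ((∑ x : Fin n, ∑ y : Fin n, ∑ z : Fin n,
        ind (({x, y, z} : Finset (Fin n)) ∈ colT T c s) : ℤ) : ℝ) ≤ (n : ℝ) ^ 3 := by
      push_cast
      have : ∀ x y z : Fin n, (ind (({x, y, z} : Finset (Fin n)) ∈ colT T c s) : ℝ) ≤ 1 := by
        intro x y z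
        unfold ind
        split_ifs <;> norm_num
      refine (sum_le_sum fun x _ => sum_le_sum fun y _ => sum_le_sum fun z _ => this x y z).trans ?_
      simp only [sum_const, card_univ, Fintype.card_fin, nsmul_eq_mul, mul_one]
      exact le_of_eq (by ring)
    have h9 : (n : ℝ) ^ 3 - ((∑ x : Fin n, ∑ y : Fin n, ∑ z : Fin n,
        ind (({x, y, z} : Finset (Fin n)) ∈ colT T c s) : ℤ) : ℝ) ≤
        (1 - 6 * δ) * (n : ℝ) ^ 3 := by
      have : 6 * (δ * (n : ℝ) ^ 3) ≤ 6 * ((colT T c s).card : ℝ) := by linarith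
      linarith
    calc _ ≤ ((1 - 6 * δ) * (n : ℝ) ^ 3) ^ r := pow_le_pow_left₀ (by linarith) h9 r
      _ = (1 - 6 * δ) ^ r * (n : ℝ) ^ (3 * r) := by rw [mul_pow, ← pow_mul]
  have hgs : ∑ s, ((n : ℝ) ^ 3 - ((∑ x : Fin n, ∑ y : Fin n, ∑ z : Fin n,
        ind (({x, y, z} : Finset (Fin n)) ∈ colT T c s) : ℤ) : ℝ)) ^ r ≤
        η / 4 * (n : ℝ) ^ (3 * r) := by
    have h5 := sum_le_sum fun s (_ : s ∈ (univ : Finset (Fin 3))) => hgam s
    rw [sum_const, card_univ, Fintype.card_fin, nsmul_eq_mul] at h5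
    have h6 := mul_le_mul_of_nonneg_right hrδ (by positivity : (0 : ℝ) ≤ (n : ℝ) ^ (3 * r))
    refine h5.trans (le_trans (le_of_eq ?_) h6)
    push_cast
    ring
  have npow : (n : ℝ) ^ (3 * r) = (n : ℝ) ^ (3 * r - 3) * (n : ℝ) ^ 3 := by
    rw [← pow_add]
    congr 1
    omega
  have hNk : (0 : ℝ) < (n : ℝ) ^ (3 * r - 3) := by positivity
  have hb1 : d * ((n : ℝ) ^ (3 * r - 3) * (n : ℝ) ^ 2 +
      (n : ℝ) ^ (3 * r - 3) * (6 * ((badT T c).card : ℝ))) ≤ η / 4 * (n : ℝ) ^ (3 * r) := by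
    have h5 : (n : ℝ) ^ (3 * r - 3) * (n : ℝ) ^ 2 +
      (n : ℝ) ^ (3 * r - 3) * (6 * ((badT T c).card : ℝ)) ≤ (n : ℝ) ^ (3 * r - 3) *
        ((n : ℝ) ^ 2 + 6 * (ε * (n : ℝ) ^ 3)) := by
      rw [← mul_add]
      exact mul_le_mul_of_nonneg_left (by linarith) hNk.le
    have h6 : k ^ 3 * ((n : ℝ) ^ 2 + 6 * (ε * (n : ℝ) ^ 3)) ≤ η / 4 * (n : ℝ) ^ 3 := by
      have a1 := mul_le_mul_of_nonneg_right hkn (by positivity : (0 : ℝ) ≤ (n : ℝ) ^ 2)
      calc k ^ 3 * ((n : ℝ) ^ 2 + 6 * (ε * (n : ℝ) ^ 3)) =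
          k ^ 3 * (n : ℝ) ^ 2 + (k ^ 3 * (6 * ε)) * (n : ℝ) ^ 3 := by ring
        _ = k ^ 3 * (n : ℝ) ^ 2 + η / 8 * (n : ℝ) ^ 3 := by rw [hεk]
        _ ≤ η / 8 * n * (n : ℝ) ^ 2 + η / 8 * (n : ℝ) ^ 3 := by linarith
        _ = η / 4 * (n : ℝ) ^ 3 := by ring
    have h7 : 0 ≤ (n : ℝ) ^ 2 + 6 * (ε * (n : ℝ) ^ 3) := by positivity
    calc d * ((n : ℝ) ^ (3 * r - 3) * (n : ℝ) ^ 2 +
      (n : ℝ) ^ (3 * r - 3) * (6 * ((badT T c).card : ℝ))) ≤
        d * ((n : ℝ) ^ (3 * r - 3) * ((n : ℝ) ^ 2 + 6 * (ε * (n : ℝ) ^ 3))) :=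
          mul_le_mul_of_nonneg_left h5 dpos.le
      _ ≤ k ^ 3 * ((n : ℝ) ^ (3 * r - 3) * ((n : ℝ) ^ 2 + 6 * (ε * (n : ℝ) ^ 3))) :=
          mul_le_mul_of_nonneg_right hd1 (by positivity)
      _ = (n : ℝ) ^ (3 * r - 3) * (k ^ 3 * ((n : ℝ) ^ 2 + 6 * (ε * (n : ℝ) ^ 3))) := by ring
      _ ≤ (n : ℝ) ^ (3 * r - 3) * (η / 4 * (n : ℝ) ^ 3) := mul_le_mul_of_nonneg_left h6 hNk.le
      _ = η / 4 * (n : ℝ) ^ (3 * r) := by rw [npow]; ring
  have hstep : (Az : ℝ) * ((1 - η / 2) * (n : ℝ) ^ (3 * r)) ≤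
      d * ((n : ℝ) ^ (3 * r - 3) * (6 * (T.card : ℝ))) := by
    refine le_trans (mul_le_mul_of_nonneg_left ?_ hA0R) hmainR
    linarith
  have hstep2 : (Az : ℝ) * ((1 - η / 2) * (n : ℝ) ^ 3) ≤ d * (6 * (T.card : ℝ)) := by
    have h5 : (n : ℝ) ^ (3 * r - 3) * ((Az : ℝ) * ((1 - η / 2) * (n : ℝ) ^ 3)) ≤
        (n : ℝ) ^ (3 * r - 3) * (d * (6 * (T.card : ℝ))) := by
      rw [npow] at hstep
      linarith
    exact le_of_mul_le_mul_left h5 hNk
  have hfin : d * ((4 / 9 - η) * (n : ℝ) ^ 3) ≤ d * (6 * (T.card : ℝ)) := by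
    refine le_trans ?_ hstep2
    have hn3 : (0 : ℝ) ≤ (n : ℝ) ^ 3 := by positivity
    have h5 : d * (4 / 9 - η) ≤ (Az : ℝ) * (1 - η / 2) := by
      have : (Az : ℝ) * (η / 2) ≤ d * (η / 2) := mul_le_mul_of_nonneg_right hAd (by positivity)
      linarith
    calc d * ((4 / 9 - η) * (n : ℝ) ^ 3) = (d * (4 / 9 - η)) * (n : ℝ) ^ 3 := by ring
      _ ≤ ((Az : ℝ) * (1 - η / 2)) * (n : ℝ) ^ 3 := mul_le_mul_of_nonneg_right h5 hn3
      _ = _ := by ring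
  exact le_of_mul_le_mul_left hfin dpos

/-- the final form -/
theorem asymptotic {δ η : ℝ} (hδ : 0 < δ) (hη : 0 < η) :
    ∃ ε : ℝ, 0 < ε ∧ ∃ n0 : ℕ, ∀ n, n0 ≤ n → ∀ T : Finset (Finset (Fin n)),
      (∀ e ∈ T, e.card = 3) → Covers T → ∀ c : Fin n → Fin n → Fin 3, (∀ x y, c x y = c y x) →
      ((badT T c).card : ℝ) ≤ ε * (n : ℝ) ^ 3 → (∀ s, δ * (n : ℝ) ^ 3 ≤ ((colT T c s).card : ℝ)) →
      (4 / 9 - η) * (n.choose 3 : ℝ) ≤ (T.card : ℝ) := by
  have hδ' : 0 < min δ (1 / 12) := lt_min hδ (by norm_num)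
  have hδ1 : 6 * min δ (1 / 12) < 1 := by
    have := min_le_right δ (1 / 12)
    linarith
  obtain ⟨ε, hε, n0, hmain⟩ := asym_aux hδ' hδ1 hη
  refine ⟨ε, hε, n0, fun n hn T h3 hT c hs hb hc => ?_⟩
  have h1 := hmain n hn T h3 hT c hs hb fun s => le_trans
    (mul_le_mul_of_nonneg_right (min_le_left _ _) (by positivity)) (hc s)
  have hT0 : (0 : ℝ) ≤ (T.card : ℝ) := Nat.cast_nonneg _
  have hC0 : (0 : ℝ) ≤ (n.choose 3 : ℝ) := Nat.cast_nonneg _
  by_cases hneg : 4 / 9 - η ≤ 0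
  · nlinarith
  · push Not at hneg
    have h5 : 6 * ((n.choose 3 : ℕ) : ℝ) ≤ (n : ℝ) ^ 3 := by
      have h6 := c3 n
      have h7 : 6 * ((n.choose 3 : ℕ) : ℝ) = (n : ℝ) * ((n : ℝ) - 1) * ((n : ℝ) - 2) := by
        exact_mod_cast h6
      rw [h7]
      rcases Nat.eq_zero_or_pos n with h8 | h8
      · subst h8
        norm_num
      · have h9 : (1 : ℝ) ≤ n := by exact_mod_cast h8
        nlinarith
    nlinarith [mul_le_mul_of_nonneg_left h5 hneg.le]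

end Pool.Agent.R810.TC
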