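import Pool.Agent.R810.TC.Final

/-! Counting maps from a finite set of indices. -/

set_option autoImplicit false
open Finset
open scoped Classical

namespace Pool.Agent.R810.TC

open Pool.Agent.R810.LJ (tn ind ind_t ind_f ind_nonneg six_le ord_le_six ordered_le aa bb
  dist_of swap_set rot_set tn_le key3)

variable {I : Type*} [Fintype I] [DecidableEq I] {V : Type*} [Fintype V]

theorem prod3' {i j l : I} (hij : i ≠ j) (hil : i ≠ l) (hjl : j ≠ l) (a b c d : ℕ) :
    ∏ m : I, (if m = i then a else if m = j then b else if m = l then c else d) =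
      a * b * c * d ^ (Fintype.card I - 3) := by
  have m1 : j ∈ univ.erase i := mem_erase.2 ⟨hij.symm, mem_univ j⟩
  have m2 : l ∈ (univ.erase i).erase j := mem_erase.2 ⟨hjl.symm, mem_erase.2 ⟨hil.symm, mem_univ l⟩⟩
  rw [← mul_prod_erase univ _ (mem_univ i), ← mul_prod_erase (univ.erase i) _ m1,
    ← mul_prod_erase ((univ.erase i).erase j) _ m2]
  rw [if_pos rfl, if_neg hij.symm, if_pos rfl, if_neg hil.symm, if_neg hjl.symm, if_pos rfl]
  have e : ∀ m ∈ ((univ.erase i).erase j).erase l,
      (if m = i then a else if m = j then b else if m = l then c else d) = d := by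
    intro m hm
    simp only [mem_erase, mem_univ, and_true] at hm
    rw [if_neg hm.2.2, if_neg hm.2.1, if_neg hm.1]
  rw [prod_congr rfl e, prod_const, card_erase_of_mem m2, card_erase_of_mem m1,
    card_erase_of_mem (mem_univ i), card_univ, Nat.sub_sub, Nat.sub_sub]
  ring

theorem card3' {i j l : I} (hij : i ≠ j) (hil : i ≠ l) (hjl : j ≠ l) (x y z : V) :
    (univ.filter fun f : I → V => f i = x ∧ f j = y ∧ f l = z).card =
      Fintype.card V ^ (Fintype.card I - 3) := by
  have e : (univ.filter fun f : I → V => f i = x ∧ f j = y ∧ f l = z) =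
      Fintype.piFinset fun m : I =>
        if m = i then ({x} : Finset V) else if m = j then {y} else if m = l then {z} else univ := by
    ext f
    simp only [mem_filter, mem_univ, true_and, Fintype.mem_piFinset]
    constructor
    · rintro ⟨h1, h2, h3⟩ m
      split_ifs with e1 e2 e3
      · rw [e1, h1]; exact mem_singleton_self _
      · rw [e2, h2]; exact mem_singleton_self _
      · rw [e3, h3]; exact mem_singleton_self _
      · exact mem_univ _
    · intro h
      refine ⟨?_, ?_, ?_⟩
      · have := h i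
        rwa [if_pos rfl, mem_singleton] at this
      · have := h j
        rwa [if_neg hij.symm, if_pos rfl, mem_singleton] at this
      · have := h l
        rwa [if_neg hil.symm, if_neg hjl.symm, if_pos rfl, mem_singleton] at this
  rw [e, Fintype.card_piFinset]
  have h := prod3' hij hil hjl 1 1 1 (Fintype.card V)
  rw [one_mul, one_mul, one_mul] at h
  rw [← h]
  refine prod_congr rfl fun m _ => ?_
  split_ifs <;> simp

/-- sums over maps of functions of three values -/
theorem sum3' {i j l : I} (hij : i ≠ j) (hil : i ≠ l) (hjl : j ≠ l) (F : V → V → V → ℤ) :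
    ∑ f : I → V, F (f i) (f j) (f l) =
      (Fintype.card V : ℤ) ^ (Fintype.card I - 3) * ∑ x, ∑ y, ∑ z, F x y z := by
  have h1 := sum_fiberwise_of_maps_to (s := (univ : Finset (I → V)))
    (t := (univ : Finset (V × V × V))) (g := fun f => (f i, f j, f l)) (fun x _ => mem_univ _)
    (fun f => F (f i) (f j) (f l))
  rw [← h1, Fintype.sum_prod_type, mul_sum]
  refine sum_congr rfl fun x _ => ?_
  rw [Fintype.sum_prod_type, mul_sum]
  refine sum_congr rfl fun y _ => ?_
  rw [mul_sum]
  refine sum_congr rfl fun z _ => ?_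
  have e : ∀ f ∈ univ.filter (fun f : I → V => (f i, f j, f l) = (x, y, z)),
      F (f i) (f j) (f l) = F x y z := by
    intro f hf
    have h2 := (mem_filter.1 hf).2
    simp only [Prod.mk.injEq] at h2
    rw [h2.1, h2.2.1, h2.2.2]
  rw [sum_congr rfl e, sum_const, nsmul_eq_mul]
  congr 1
  have h3 := card3' hij hil hjl x y z
  have h4 : (univ.filter fun f : I → V => (f i, f j, f l) = (x, y, z)) =
      univ.filter fun f : I → V => f i = x ∧ f j = y ∧ f l = z := by
    refine filter_congr fun f _ => ?_
    simp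
  rw [h4, h3]
  push_cast
  ring

/-- the triples of different indices -/
def DI (I : Type*) [Fintype I] [DecidableEq I] : Finset (I × I × I) :=
  univ.filter fun t => t.1 ≠ t.2.1 ∧ t.1 ≠ t.2.2 ∧ t.2.1 ≠ t.2.2

theorem mem_DI {t : I × I × I} :
    t ∈ DI I ↔ t.1 ≠ t.2.1 ∧ t.1 ≠ t.2.2 ∧ t.2.1 ≠ t.2.2 := by
  unfold DI
  simp

theorem DI_card_le : ((DI I).card : ℤ) ≤ (Fintype.card I : ℤ) ^ 3 := by
  have h : (DI I).card ≤ Fintype.card I * (Fintype.card I * Fintype.card I) := by
    refine (card_le_univ _).trans ?_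
    simp
  have h2 : ((DI I).card : ℤ) ≤ ((Fintype.card I * (Fintype.card I * Fintype.card I) : ℕ) : ℤ) := by
    exact_mod_cast h
  push_cast at h2
  linarith [h2, show (Fintype.card I : ℤ) ^ 3 =
    Fintype.card I * (Fintype.card I * Fintype.card I) by ring]

theorem DI_card_ge : (Fintype.card I : ℤ) ^ 3 - 3 * (Fintype.card I : ℤ) ^ 2 ≤
    ((DI I).card : ℤ) := by
  have h1 : (univ : Finset (I × I × I)) ⊆ DI I ∪
      ((univ : Finset (I × I)).image fun p => (p.1, p.1, p.2)) ∪
      ((univ : Finset (I × I)).image fun p => (p.1, p.2, p.1)) ∪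
      ((univ : Finset (I × I)).image fun p => (p.1, p.2, p.2)) := by
    rintro ⟨a, b, c⟩ -
    simp only [mem_union, mem_DI, mem_image, mem_univ, true_and, Prod.mk.injEq, Prod.exists]
    by_cases e1 : a = b
    · subst e1
      exact Or.inl (Or.inl (Or.inr ⟨a, c, rfl, rfl, rfl⟩))
    · by_cases e2 : a = c
      · subst e2
        exact Or.inl (Or.inr ⟨a, b, rfl, rfl, rfl⟩)
      · by_cases e3 : b = c
        · subst e3
          exact Or.inr ⟨a, b, rfl, rfl, rfl⟩
        · exact Or.inl (Or.inl (Or.inl ⟨e1, e2, e3⟩))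
  have h2 := card_le_card h1
  set k := Fintype.card I with hk
  have hp : (univ : Finset (I × I)).card = k * k := by simp [hk]
  have i1 : ((univ : Finset (I × I)).image fun p => (p.1, p.1, p.2)).card ≤ k * k :=
    card_image_le.trans hp.le
  have i2 : ((univ : Finset (I × I)).image fun p => (p.1, p.2, p.1)).card ≤ k * k :=
    card_image_le.trans hp.le
  have i3 : ((univ : Finset (I × I)).image fun p => (p.1, p.2, p.2)).card ≤ k * k :=
    card_image_le.trans hp.le
  have h3 := card_union_le (DI I ∪
      ((univ : Finset (I × I)).image fun p => (p.1, p.1, p.2)) ∪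
      ((univ : Finset (I × I)).image fun p => (p.1, p.2, p.1)))
      ((univ : Finset (I × I)).image fun p => (p.1, p.2, p.2))
  have h4 := card_union_le (DI I ∪
      ((univ : Finset (I × I)).image fun p => (p.1, p.1, p.2)))
      ((univ : Finset (I × I)).image fun p => (p.1, p.2, p.1))
  have h5 := card_union_le (DI I)
      ((univ : Finset (I × I)).image fun p => (p.1, p.1, p.2))
  have h6 : (univ : Finset (I × I × I)).card = k * (k * k) := by simp [hk]
  rw [h6] at h2
  have h7 : k * (k * k) ≤ (DI I).card + 3 * (k * k) := by omega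
  have h8 : ((k * (k * k) : ℕ) : ℤ) ≤ (((DI I).card + 3 * (k * k) : ℕ) : ℤ) := by exact_mod_cast h7
  push_cast at h8
  nlinarith [h8]

theorem sum_ind_card {α : Type*} [Fintype α] (p : α → Prop) [DecidablePred p] :
    ∑ x, ind (p x) = ((univ.filter fun x => p x).card : ℤ) := by
  rw [card_filter]
  push_cast
  refine sum_congr rfl fun x _ => ?_
  unfold ind
  split_ifs <;> simp_all

/-- no block in the set -/
theorem sum_block (r : ℕ) (S : V → V → V → Prop) :
    ∑ f : Fin r × Fin 3 → V, ind (∀ q, ¬ S (f (q, 0)) (f (q, 1)) (f (q, 2))) =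
      ((Fintype.card V : ℤ) ^ 3 - ∑ x, ∑ y, ∑ z, ind (S x y z)) ^ r := by
  have h1 : ∑ f : Fin r × Fin 3 → V, ind (∀ q, ¬ S (f (q, 0)) (f (q, 1)) (f (q, 2))) =
      ∑ G : Fin r → Fin 3 → V, ind (∀ q, ¬ S (G q 0) (G q 1) (G q 2)) := by
    refine Fintype.sum_equiv (Equiv.curry (Fin r) (Fin 3) V) _ _ fun f => ?_
    rfl
  rw [h1, sum_ind_card]
  have h2 : (univ.filter fun G : Fin r → Fin 3 → V => ∀ q, ¬ S (G q 0) (G q 1) (G q 2)) =
      Fintype.piFinset fun _ : Fin r => univ.filter fun h : Fin 3 → V => ¬ S (h 0) (h 1) (h 2) := by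
    ext G
    simp [Fintype.mem_piFinset]
  rw [h2, Fintype.card_piFinset, prod_const, card_univ, Fintype.card_fin]
  push_cast
  congr 1
  have h3 := sum3' (I := Fin 3) (i := 0) (j := 1) (l := 2) (by decide) (by decide) (by decide)
    (fun x y z : V => ind (S x y z))
  have h4 : Fintype.card (Fin 3) - 3 = 0 := rfl
  rw [h4, pow_zero, one_mul, sum_ind_card] at h3
  have h5 : (univ.filter fun h : Fin 3 → V => S (h 0) (h 1) (h 2)).card +
      (univ.filter fun h : Fin 3 → V => ¬ S (h 0) (h 1) (h 2)).card = Fintype.card V ^ 3 := by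
    have := card_filter_add_card_filter_not (s := (univ : Finset (Fin 3 → V)))
      (fun h : Fin 3 → V => S (h 0) (h 1) (h 2))
    rw [card_univ, Fintype.card_fun, Fintype.card_fin] at this
    exact this
  have h6 : (((univ.filter fun h : Fin 3 → V => S (h 0) (h 1) (h 2)).card +
      (univ.filter fun h : Fin 3 → V => ¬ S (h 0) (h 1) (h 2)).card : ℕ) : ℤ) =
      ((Fintype.card V ^ 3 : ℕ) : ℤ) := by rw [h5]
  push_cast at h6
  rw [h3] at h6
  linarith

end Pool.Agent.R810.TC
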