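import Pool.Agent.R810.TC.Rob

/-! The tight components of Turán's construction, and more colours. -/

set_option autoImplicit false
open Finset
open scoped Classical

namespace Pool.Agent.R810.TC

open Pool.Agent.R810.LJ (tn pat)

variable {n : ℕ}

theorem cov_eq (g : Fin n → Fin 3) :
    turanCovering g = powersetCard 3 univ \ LJ.turanGraph (fun x => - g x) := by
  ext e
  by_cases he : e.card = 3
  · obtain ⟨x, y, z, d1, d2, d3, rfl⟩ := card_eq_three.1 he
    rw [mem_cov g d1 d2 d3, cov_pat', mem_sdiff, mem_powersetCard, LJ.mem_turanGraph _ d1 d2 d3]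
    simp [he]
  · have h1 : e ∉ turanCovering g := fun h => he (mem_filter.1 h).2.1
    have h2 : e ∉ powersetCard 3 univ \ LJ.turanGraph (fun x => - g x) := fun h =>
      he (mem_powersetCard.1 (mem_sdiff.1 h).1).2
    tauto

theorem cov_card (g : Fin n → Fin 3) :
    (turanCovering g).card + (LJ.turanGraph (fun x => - g x)).card = n.choose 3 := by
  have hsub : LJ.turanGraph (fun x => - g x) ⊆ powersetCard 3 univ := fun e he =>
    mem_powersetCard.2 ⟨subset_univ _, LJ.card_of_turan he⟩
  have h1 := card_sdiff_add_card_eq_card hsub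
  rw [card_powersetCard, card_univ, Fintype.card_fin, ← cov_eq] at h1
  exact h1

theorem fn_le_cov (g : Fin n → Fin 3) : fn n ≤ (turanCovering g).card := by
  have h1 := cov_card g
  have h2 := LJ.turan_card_le (fun x => - g x)
  have h3 := tn_add_fn n
  omega

theorem cov_three {g : Fin n → Fin 3} {e : Finset (Fin n)} (he : e ∈ turanCovering g) :
    e.card = 3 := (mem_filter.1 he).2.1

theorem cov_covers (g : Fin n → Fin 3) : Covers (turanCovering g) := by
  intro S hS
  obtain ⟨e, he, h3, hn⟩ := LJ.turan_free (fun x => - g x) S hS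
  refine ⟨e, ?_, he⟩
  rw [cov_eq, mem_sdiff, mem_powersetCard]
  exact ⟨⟨subset_univ _, h3⟩, hn⟩

theorem exists_cov (hn : 6 ≤ n) : ∃ g : Fin n → Fin 3,
    (∀ i, 2 ≤ (univ.filter fun x => g x = i).card) ∧ (turanCovering g).card = fn n := by
  obtain ⟨g, hg, hc⟩ := LJ.exists_balanced n hn
  refine ⟨fun x => - g x, ?_, ?_⟩
  · intro i
    have := hg (-i)
    refine this.trans (le_of_eq ?_)
    congr 1
    ext x
    simp only [mem_filter, mem_univ, true_and]
    have : ∀ a b : Fin 3, a = -b ↔ -a = b := by decide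
    exact this _ _
  · have h1 := cov_card (fun x => - g x)
    simp only [neg_neg] at h1
    have h2 := tn_add_fn n
    have h3 : (LJ.turanGraph (fun x => g x)).card = tn n := hc
    omega

/-- the colour of a pair between two classes -/
def col2 (i j : Fin 3) : Fin 3 := if i = j + 1 then j else i

theorem col2_mono : ∀ i j l : Fin 3, ((∃ k, i = k ∧ j = k ∧ l = k) ∨
      ∃ k, ((if i = k then 1 else 0) + ((if j = k then 1 else 0) + (if l = k then 1 else 0)) = 2 ∧
      (if i = k + 1 then 1 else 0) + ((if j = k + 1 then 1 else 0) +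
        (if l = k + 1 then 1 else 0)) = 1)) →
    col2 i j = col2 i l ∧ col2 i j = col2 j l ∧ col2 i j = col2 j i ∧ col2 i l = col2 l i ∧
      col2 j l = col2 l j := by
  decide

theorem col2_self : ∀ i : Fin 3, col2 i i = i := by decide

theorem cov_mono {g : Fin n → Fin 3} {e : Finset (Fin n)} (he : e ∈ turanCovering g) :
    ∃ s, MonoIn (fun x y => col2 (g x) (g y)) s e := by
  obtain ⟨x, y, z, d1, d2, d3, rfl⟩ := card_eq_three.1 (cov_three he)
  rw [mem_cov g d1 d2 d3] at he
  obtain ⟨e1, e2, e3, e4, e5⟩ := col2_mono _ _ _ he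
  refine ⟨col2 (g x) (g y), ?_⟩
  intro a ha b hb hab
  simp only [mem_insert, mem_singleton] at ha hb
  rcases ha with rfl | rfl | rfl <;> rcases hb with rfl | rfl | rfl
  · exact absurd rfl hab
  · rfl
  · exact e1.symm
  · exact e3.symm
  · exact absurd rfl hab
  · exact e2.symm
  · exact (e4.symm.trans e1.symm)
  · exact (e5.symm.trans e2.symm)
  · exact absurd rfl hab

theorem linked_mono {κ : Type*} {T : Finset (Finset (Fin n))} {c : Fin n → Fin n → κ}
    (h : ∀ e ∈ T, ∃ s, MonoIn c s e) {s : κ} {e f : Finset (Fin n)} (he : MonoIn c s e)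
    (hef : Linked T e f) : MonoIn c s f := by
  induction hef with
  | refl => exact he
  | @tail b d _ hbd ih =>
    obtain ⟨h1, h2, h3⟩ := hbd
    obtain ⟨x, y, hxy, hp⟩ := card_eq_two.1 h3
    have hx : x ∈ b ∩ d := by rw [hp]; simp
    have hy : y ∈ b ∩ d := by rw [hp]; simp
    rw [mem_inter] at hx hy
    obtain ⟨t, ht⟩ := h d h2
    have : t = s := by
      rw [← ht x hx.2 y hy.2 hxy, ih x hx.1 y hy.1 hxy]
    rwa [← this]

/-- the tight components -/
def tightComponents (T : Finset (Finset (Fin n))) : Set (Set (Finset (Fin n))) :=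
  {C | ∃ e ∈ T, C = {f | Linked T e f}}

theorem comp_eq_iff {T : Finset (Finset (Fin n))} {e f : Finset (Fin n)} :
    ({x | Linked T e x} : Set (Finset (Fin n))) = {x | Linked T f x} ↔ Linked T e f := by
  constructor
  · intro h
    have : f ∈ ({x | Linked T f x} : Set (Finset (Fin n))) := Relation.ReflTransGen.refl
    rw [← h] at this
    exact this
  · intro h
    ext x
    exact ⟨fun hx => Relation.ReflTransGen.trans h.symm hx,
      fun hx => Relation.ReflTransGen.trans h hx⟩

theorem three_of {T : Finset (Finset (Fin n))} (h : 3 ≤ (tightComponents T).ncard) :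
    ∃ p : Fin 3 → Finset (Fin n), (∀ i, p i ∈ T) ∧ ∀ i j, i ≠ j → ¬ Linked T (p i) (p j) := by
  have h2 : 2 < (tightComponents T).ncard := h
  rw [Set.two_lt_ncard_iff (Set.toFinite _)] at h2
  obtain ⟨A, B, C, ⟨a, ha, rfl⟩, ⟨b, hb, rfl⟩, ⟨d, hd, rfl⟩, h1, h2, h3⟩ := h2
  rw [Ne, comp_eq_iff] at h1 h2 h3
  refine ⟨![a, b, d], ?_, ?_⟩
  · intro i
    fin_cases i
    · exact ha
    · exact hb
    · exact hd
  · intro i j hij
    fin_cases i <;> fin_cases j
    · exact absurd rfl hij
    · exact h1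
    · exact h2
    · exact fun h => h1 h.symm
    · exact absurd rfl hij
    · exact h3
    · exact fun h => h2 h.symm
    · exact fun h => h3 h.symm
    · exact absurd rfl hij

theorem tight_le {T : Finset (Finset (Fin n))} (h3 : ∀ e ∈ T, e.card = 3) (hT : Covers T) :
    (tightComponents T).ncard ≤ 3 := by
  by_contra hcon
  push Not at hcon
  obtain ⟨p, hp, hne⟩ := three_of (T := T) hcon.le
  obtain ⟨-, -, h5⟩ := tight_main h3 hT hp hne
  have hsub : tightComponents T ⊆ Set.range fun i : Fin 3 => ({f | Linked T (p i) f} :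
      Set (Finset (Fin n))) := by
    rintro C ⟨e, he, rfl⟩
    obtain ⟨i, hi⟩ := h5 e he
    exact ⟨i, comp_eq_iff.2 hi⟩
  have h6 := Set.ncard_le_ncard hsub (Set.finite_range _)
  have h7 : (Set.range fun i : Fin 3 => ({f | Linked T (p i) f} :
      Set (Finset (Fin n)))).ncard ≤ 3 := by
    rw [← Set.image_univ]
    refine (Set.ncard_image_le Set.finite_univ).trans ?_
    rw [Set.ncard_univ]
    simp
  omega

theorem tight_cov {g : Fin n → Fin 3} (hg : ∀ i, 2 ≤ (univ.filter fun x => g x = i).card) :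
    (tightComponents (turanCovering g)).ncard = 3 := by
  refine le_antisymm (tight_le (fun e he => cov_three he) (cov_covers g)) ?_
  have hp : ∀ i : Fin 3, ∃ e ∈ turanCovering g, MonoIn (fun x y => col2 (g x) (g y)) i e := by
    intro i
    obtain ⟨x, hx, y, hy, hxy⟩ := one_lt_card.1 (hg i)
    obtain ⟨z, hz⟩ := card_pos.1 (lt_of_lt_of_le (by norm_num) (hg (i + 1)))
    rw [mem_filter] at hx hy hz
    have hi : i ≠ i + 1 := by
      have : ∀ i : Fin 3, i ≠ i + 1 := by decide
      exact this i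
    have d2 : x ≠ z := fun h => hi (hx.2.symm.trans ((congrArg g h).trans hz.2))
    have d3 : y ≠ z := fun h => hi (hy.2.symm.trans ((congrArg g h).trans hz.2))
    have hm : ({x, y, z} : Finset (Fin n)) ∈ turanCovering g := by
      rw [mem_cov g hxy d2 d3, hx.2, hy.2, hz.2]
      have : ∀ i : Fin 3, ((∃ k, i = k ∧ i = k ∧ i + 1 = k) ∨
        ∃ k, ((if i = k then 1 else 0) + ((if i = k then 1 else 0) +
          (if i + 1 = k then 1 else 0)) = 2 ∧
        (if i = k + 1 then 1 else 0) + ((if i = k + 1 then 1 else 0) +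
          (if i + 1 = k + 1 then 1 else 0)) = 1)) := by decide
      exact this i
    refine ⟨_, hm, ?_⟩
    obtain ⟨s, hs⟩ := cov_mono hm
    have h5 := hs x (by simp) y (by simp) hxy
    simp only [hx.2, hy.2, col2_self] at h5
    rw [h5]
    exact hs
  choose p hpT hpm using hp
  have hinj : Function.Injective fun i : Fin 3 => ({f | Linked (turanCovering g) (p i) f} :
      Set (Finset (Fin n))) := by
    intro i j hij
    have h5 : Linked (turanCovering g) (p i) (p j) := comp_eq_iff.1 hij
    have h6 := linked_mono (fun e he => cov_mono he) (hpm i) h5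
    obtain ⟨x, y, z, d1, d2, d3, he⟩ := card_eq_three.1 (cov_three (hpT j))
    have hx : x ∈ p j := by rw [he]; simp
    have hy : y ∈ p j := by rw [he]; simp
    rw [← h6 x hx y hy d1, hpm j x hx y hy d1]
  have hsub : (Set.range fun i : Fin 3 => ({f | Linked (turanCovering g) (p i) f} :
      Set (Finset (Fin n)))) ⊆ tightComponents (turanCovering g) := by
    rintro C ⟨i, rfl⟩
    exact ⟨p i, hpT i, rfl⟩
  have h6 := Set.ncard_le_ncard hsub (Set.toFinite _)
  rw [← Set.image_univ, Set.ncard_image_of_injective _ hinj, Set.ncard_univ] at h6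
  simpa using h6

theorem mem_monoT {κ : Type*} {c : Fin n → Fin n → κ} {e : Finset (Fin n)} :
    e ∈ monoTriples c ↔ e.card = 3 ∧ IsMono c e := by
  unfold monoTriples
  rw [mem_filter]
  exact ⟨fun h => h.2, fun h => ⟨mem_univ _, h⟩⟩

/-- more colours -/
theorem asymptotic_many {δ η : ℝ} (hδ : 0 < δ) (hη : 0 < η) :
    ∃ ε : ℝ, 0 < ε ∧ ∃ n0 : ℕ, ∀ n, n0 ≤ n → ∀ T : Finset (Finset (Fin n)),
      (∀ e ∈ T, e.card = 3) → Covers T → ∀ (κ : Type) (c : Fin n → Fin n → κ),
      (∀ x y, c x y = c y x) →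
      (({e | e ∈ T ∧ ∀ s, ¬ MonoIn c s e} : Set (Finset (Fin n))).ncard : ℝ) ≤ ε * (n : ℝ) ^ 3 →
      (∃ k : Fin 3 → κ, Function.Injective k ∧ ∀ i, δ * (n : ℝ) ^ 3 ≤
        (({e | e ∈ T ∧ MonoIn c (k i) e} : Set (Finset (Fin n))).ncard : ℝ)) →
      (4 / 9 - η) * (n.choose 3 : ℝ) ≤ (T.card : ℝ) := by
  obtain ⟨ε, hε, n0, h⟩ := asymptotic hδ hη
  refine ⟨ε, hε, n0, fun n hn T h3 hT κ c hs hbad hk => ?_⟩
  obtain ⟨k, hk, hcol⟩ := hk
  set φ : κ → Fin 3 := fun s => if s = k 0 then 0 else if s = k 1 then 1 else 2 with hφ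
  have hφk : ∀ i, φ (k i) = i := by
    have n10 : k 1 ≠ k 0 := fun h => absurd (hk h) (by decide)
    have n20 : k 2 ≠ k 0 := fun h => absurd (hk h) (by decide)
    have n21 : k 2 ≠ k 1 := fun h => absurd (hk h) (by decide)
    intro i
    fin_cases i
    · simp [hφ]
    · simp [hφ, n10]
    · simp [hφ, n20, n21]
  refine h n hn T h3 hT (fun x y => φ (c x y)) (fun x y => by rw [hs x y]) ?_ ?_
  · refine le_trans ?_ hbad
    rw [← Set.ncard_coe_finset]
    refine Nat.cast_le.2 (Set.ncard_le_ncard ?_ (Set.toFinite _))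
    intro e he
    rw [mem_coe] at he
    unfold badT at he
    rw [mem_filter] at he
    refine ⟨he.1, fun s hs' => he.2 (φ s) ?_⟩
    intro x hx y hy hxy
    exact congrArg φ (hs' x hx y hy hxy)
  · intro i
    refine (hcol i).trans ?_
    rw [← Set.ncard_coe_finset]
    refine Nat.cast_le.2 (Set.ncard_le_ncard ?_ (Set.toFinite _))
    rintro e ⟨he1, he2⟩
    rw [mem_coe]
    unfold colT
    rw [mem_filter]
    refine ⟨he1, ?_⟩
    intro x hx y hy hxy
    have h5 : φ (c x y) = φ (k i) := congrArg φ (he2 x hx y hy hxy)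
    exact h5.trans (hφk i)

end Pool.Agent.R810.TC
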