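import Pool.Agent.R810.TC.Core

/-! The orientation of the classes. -/

set_option autoImplicit false
open Finset

namespace Pool.Agent.R810.TC

variable {V κ : Type*} {E : V → V → V → Prop} {c : V → V → κ}

/-- a pair of colour `K j` in the class `i` -/
def Q (c : V → V → κ) (K : Fin 3 → κ) (g : V → Fin 3) (i j : Fin 3) : Prop :=
  ∃ z y : V, z ≠ y ∧ g z = i ∧ g y = i ∧ c z y = K j

variable {K : Fin 3 → κ} {g : V → Fin 3}

theorem QA (h : Col E c) (hK : Function.Injective K)
    (hF : ∀ z y, z ≠ y → ∃ j, c z y = K j ∧ j ≠ g z ∧ j ≠ g y) {j : Fin 3}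
    (ho : Occ E c (K j)) : ∃ i, i ≠ j ∧ Q c K g i j := by
  obtain ⟨x, y, z, hxy, hxz, hyz, hE, hc⟩ := ho
  have hm := h.mono x y z hxy hxz hyz hE
  have f : ∀ a b, a ≠ b → c a b = K j → j ≠ g a ∧ j ≠ g b := by
    intro a b hab hc'
    obtain ⟨i, h1, h2, h3⟩ := hF a b hab
    have : i = j := hK (by rw [← h1, hc'])
    rw [← this]
    exact ⟨h2, h3⟩
  have f1 := f x y hxy hc
  have f2 := f x z hxz (by rw [← hm.1, hc])
  have dd : ∀ j a b d : Fin 3, j ≠ a → j ≠ b → j ≠ d → a = b ∨ a = d ∨ b = d := by decide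
  rcases dd j (g x) (g y) (g z) f1.1 f1.2 f2.2 with e | e | e
  · exact ⟨g x, f1.1.symm, x, y, hxy, rfl, e.symm, hc⟩
  · exact ⟨g x, f1.1.symm, x, z, hxz, rfl, e.symm, by rw [← hm.1, hc]⟩
  · exact ⟨g y, f1.2.symm, y, z, hyz, rfl, e.symm, by rw [← hm.2, hc]⟩

theorem QB (h : Col E c) (hK : Function.Injective K)
    (hF : ∀ z y, z ≠ y → ∃ j, c z y = K j ∧ j ≠ g z ∧ j ≠ g y) {i j : Fin 3} (hij : i ≠ j)
    (h1 : Q c K g i j) (h2 : Q c K g j i) : False := by
  obtain ⟨z, z', hz, g1, g2, c1⟩ := h1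
  obtain ⟨y, y', hy, g3, g4, c2⟩ := h2
  have cr : ∀ a b, g a = i → g b = j → a ≠ b ∧ c a b ≠ K i ∧ c a b ≠ K j := by
    intro a b ha hb
    have hab : a ≠ b := by
      rintro rfl
      exact hij (ha.symm.trans hb)
    obtain ⟨l, h3, h4, h5⟩ := hF a b hab
    refine ⟨hab, fun e => h4 ?_, fun e => h5 ?_⟩
    · rw [ha]
      exact hK (h3.symm.trans e)
    · rw [hb]
      exact hK (h3.symm.trans e)
  have a1 := cr z y g1 g3
  have a2 := cr z y' g1 g4
  have a3 := cr z' y g2 g3
  have a4 := cr z' y' g2 g4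
  rcases h.four z z' y y' hz a1.1 a2.1 a3.1 a4.1 hy with e | e | e | e
  · have := (h.mono z z' y hz a1.1 a3.1 e).1
    exact a1.2.2 (by rw [← this, c1])
  · have := (h.mono z z' y' hz a2.1 a4.1 e).1
    exact a2.2.2 (by rw [← this, c1])
  · have := (h.mono z y y' a1.1 a2.1 hy e).2
    exact a1.2.1 (by rw [this, c2])
  · have := (h.mono z' y y' a3.1 a4.1 hy e).2
    exact a3.2.1 (by rw [this, c2])

/-- the final form -/
theorem fin1 (h : Col E c) (hK : Function.Injective K)
    (hF : ∀ z y, z ≠ y → ∃ j, c z y = K j ∧ j ≠ g z ∧ j ≠ g y)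
    (hin : ∀ z y, z ≠ y → g z = g y → c z y = K (g z - 1)) (hne : ∀ i, ∃ x, g x = i) :
    ∀ x y z : V, x ≠ y → x ≠ z → y ≠ z → g x = g y → (g z = g x ∨ g z = g x + 1) → E x y z := by
  intro x y z hxy hxz hyz e1 e2
  obtain ⟨w, hw⟩ := hne (g x - 1)
  have f0 : ∀ i : Fin 3, i - 1 ≠ i := by decide
  have f0' : ∀ i : Fin 3, i - 1 ≠ i + 1 := by decide
  have xw : x ≠ w := by
    rintro rfl
    exact f0 _ hw.symm
  have yw : y ≠ w := by
    rintro rfl
    exact f0 (g y) (hw.trans (by rw [e1])).symm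
  have zw : z ≠ w := by
    rintro rfl
    rcases e2 with e2 | e2
    · exact f0 (g x) (by rw [← hw, e2])
    · exact f0' (g x) (by rw [← hw, e2])
  -- the two colours at a point of the class
  have low : ∀ a b, a ≠ b → (g b = g a ∨ g b = g a + 1) → c a b = K (g a - 1) := by
    intro a b hab hb
    rcases hb with hb | hb
    · exact hin a b hab hb.symm
    · obtain ⟨j, h1, h2, h3⟩ := hF a b hab
      rw [hb] at h3
      have : ∀ i j : Fin 3, j ≠ i → j ≠ i + 1 → j = i - 1 := by decide
      rw [h1, this _ _ h2 h3]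
  have high : ∀ a b, a ≠ b → g b = g a - 1 → c a b = K (g a + 1) := by
    intro a b hab hb
    obtain ⟨j, h1, h2, h3⟩ := hF a b hab
    rw [hb] at h3
    have : ∀ i j : Fin 3, j ≠ i → j ≠ i - 1 → j = i + 1 := by decide
    rw [h1, this _ _ h2 h3]
  have ne : ∀ i : Fin 3, K (i - 1) ≠ K (i + 1) := fun i e => f0' i (hK e)
  have w1 := high x w xw hw
  have w2 := high y w yw (by rw [← e1]; exact hw)
  have e2' : g z = g y ∨ g z = g y + 1 := by rw [← e1]; exact e2
  rcases h.four x y z w hxy hxz xw hyz yw zw with e | e | e | e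
  · exact e
  · have h1 := (h.mono x y w hxy xw yw e).1
    rw [low x y hxy (Or.inl e1.symm), w1] at h1
    exact absurd h1 (ne _)
  · have h1 := (h.mono x z w hxz xw zw e).1
    rw [low x z hxz e2, w1] at h1
    exact absurd h1 (ne _)
  · have h1 := (h.mono y z w hyz yw zw e).1
    rw [low y z hyz e2', w2] at h1
    exact absurd h1 (ne _)

/-- **The structure theorem.** -/
theorem turan_of [Fintype V] (h : Col E c) {k : Fin 3 → κ} (hk : Function.Injective k)
    (hE : ∀ i, Occ E c (k i)) :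
    ∃ (K : Fin 3 → κ) (g : V → Fin 3), Function.Injective K ∧
      (∀ i, 2 ≤ (univ.filter fun x => g x = i).card) ∧
      (∀ x y, x ≠ y → ∃ j, c x y = K j) ∧
      ∀ x y z : V, x ≠ y → x ≠ z → y ≠ z → g x = g y → (g z = g x ∨ g z = g x + 1) →
        E x y z := by
  classical
  have h2 := h.two hk hE
  have hV : ∃ x y : V, x ≠ y := by
    obtain ⟨x, y, z, hxy, -⟩ := hE 0
    exact ⟨x, y, hxy⟩
  -- every colour is missed by a point
  have hm : ∀ s : κ, ∃ x, ∀ y, y ≠ x → c x y ≠ s := by
    intro s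
    by_contra hcon
    push Not at hcon
    have hs : ∀ x, ∃ y, y ≠ x ∧ c x y = s := hcon
    have hp : ∀ i, ∃ p q : V, p ≠ q ∧ c p q = k i := by
      intro i
      obtain ⟨x, y, z, hxy, -, -, -, hc⟩ := hE i
      exact ⟨x, y, hxy, hc⟩
    choose p q hpq hc using hp
    have key : ∀ i j, i ≠ j → k i ≠ s → k j ≠ s → False := by
      intro i j hij a1 a2
      have := star h h2 hs (hpq i) (hpq j) (by rw [hc]; exact a1) (by rw [hc]; exact a2)
      rw [hc, hc] at this
      exact hij (hk this)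
    by_cases e0 : k 0 = s
    · exact key 1 2 (by decide) (fun e => absurd (hk (e0.trans e.symm)) (by decide))
        (fun e => absurd (hk (e0.trans e.symm)) (by decide))
    · by_cases e1 : k 1 = s
      · exact key 0 2 (by decide) e0 (fun e => absurd (hk (e1.trans e.symm)) (by decide))
      · exact key 0 1 (by decide) e0 e1
  obtain ⟨K, g, hK, -, hF⟩ := classes h h2 hm hV
  -- the three colours are those of `K`
  have hex : ∀ i, ∃ j, k i = K j := by
    intro i
    obtain ⟨x, y, z, hxy, -, -, -, hc⟩ := hE i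
    obtain ⟨j, h1, -, -⟩ := hF x y hxy
    exact ⟨j, by rw [← hc, h1]⟩
  choose σ hσ using hex
  have hσi : Function.Injective σ := fun a b hab => hk (by rw [hσ, hσ, hab])
  have hσs := Finite.surjective_of_injective hσi
  have hO : ∀ j, Occ E c (K j) := by
    intro j
    obtain ⟨i, rfl⟩ := hσs j
    rw [← hσ]
    exact hE i
  have hA : ∀ j, ∃ i, i ≠ j ∧ Q c K g i j := fun j => QA h hK hF (hO j)
  have hB : ∀ i j, i ≠ j → Q c K g i j → ¬ Q c K g j i := fun i j hij h1 h3 =>
    QB h hK hF hij h1 h3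
  -- the two orientations
  have hor : (∀ i, Q c K g i (i - 1) ∧ ¬ Q c K g i (i + 1)) ∨
      (∀ i, Q c K g i (i + 1) ∧ ¬ Q c K g i (i - 1)) := by
    have a0 : Q c K g 1 0 ∨ Q c K g 2 0 := by
      obtain ⟨i, h1, h3⟩ := hA 0
      fin_cases i
      · exact absurd rfl h1
      · exact Or.inl h3
      · exact Or.inr h3
    have a1 : Q c K g 0 1 ∨ Q c K g 2 1 := by
      obtain ⟨i, h1, h3⟩ := hA 1
      fin_cases i
      · exact Or.inl h3
      · exact absurd rfl h1
      · exact Or.inr h3
    have a2 : Q c K g 0 2 ∨ Q c K g 1 2 := by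
      obtain ⟨i, h1, h3⟩ := hA 2
      fin_cases i
      · exact Or.inl h3
      · exact Or.inr h3
      · exact absurd rfl h1
    have b01 := hB 0 1 (by decide)
    have b12 := hB 1 2 (by decide)
    have b02 := hB 0 2 (by decide)
    by_cases q : Q c K g 0 2
    · left
      have r1 : ¬ Q c K g 2 0 := b02 q
      have r2 : Q c K g 1 0 := a0.resolve_right r1
      have r3 : ¬ Q c K g 0 1 := fun e => b01 e r2
      have r4 : Q c K g 2 1 := a1.resolve_left r3
      have r5 : ¬ Q c K g 1 2 := fun e => b12 e r4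
      intro i
      fin_cases i
      · exact ⟨q, r3⟩
      · exact ⟨r2, r5⟩
      · exact ⟨r4, r1⟩
    · right
      have r2 : Q c K g 1 2 := a2.resolve_left q
      have r3 : ¬ Q c K g 2 1 := b12 r2
      have r4 : Q c K g 0 1 := a1.resolve_right r3
      have r5 : ¬ Q c K g 1 0 := b01 r4
      have r1 : Q c K g 2 0 := a0.resolve_left r5
      intro i
      fin_cases i
      · exact ⟨r4, q⟩
      · exact ⟨r2, r5⟩
      · exact ⟨r1, r3⟩
  have hsize : ∀ i j, Q c K g i j → 2 ≤ (univ.filter fun x => g x = i).card := by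
    rintro i j ⟨z, y, hzy, g1, g2, -⟩
    rw [← card_pair hzy]
    refine card_le_card ?_
    intro x hx
    rw [mem_insert, mem_singleton] at hx
    rw [mem_filter]
    rcases hx with rfl | rfl
    · exact ⟨mem_univ _, g1⟩
    · exact ⟨mem_univ _, g2⟩
  have hins : ∀ z y, z ≠ y → g z = g y → c z y = K (g z - 1) ∨ c z y = K (g z + 1) := by
    intro z y hzy hg
    obtain ⟨j, h1, h3, -⟩ := hF z y hzy
    have : ∀ i j : Fin 3, j ≠ i → j = i - 1 ∨ j = i + 1 := by decide
    rcases this _ _ h3 with e | e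
    · exact Or.inl (by rw [h1, e])
    · exact Or.inr (by rw [h1, e])
  rcases hor with hor | hor
  · refine ⟨K, g, hK, fun i => hsize i _ (hor i).1, fun x y hxy => ?_, ?_⟩
    · obtain ⟨j, h1, -, -⟩ := hF x y hxy
      exact ⟨j, h1⟩
    · refine fin1 h hK hF ?_ ?_
      · intro z y hzy hg
        rcases hins z y hzy hg with e | e
        · exact e
        · exact absurd ⟨z, y, hzy, rfl, hg.symm, e⟩ (hor (g z)).2
      · intro i
        obtain ⟨z, -, -, g1, -⟩ := (hor i).1
        exact ⟨z, g1⟩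
  · refine ⟨K, fun x => - g x, hK, fun i => ?_, fun x y hxy => ?_, ?_⟩
    · have h5 : (univ.filter fun x => - g x = i) = univ.filter fun x => g x = -i := by
        ext x
        simp only [mem_filter, mem_univ, true_and]
        constructor
        · intro h6
          rw [← h6, neg_neg]
        · intro h6
          rw [h6, neg_neg]
      rw [h5]
      exact hsize _ _ (hor (-i)).1
    · obtain ⟨j, h1, -, -⟩ := hF x y hxy
      exact ⟨j, h1⟩
    · have hK' : Function.Injective (fun i => K (-i)) := fun a b hab => neg_injective (hK hab)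
      refine fin1 (K := fun i => K (-i)) (g := fun x => - g x) h hK' ?_ ?_ ?_
      · intro z y hzy
        obtain ⟨j, h1, h3, h4⟩ := hF z y hzy
        refine ⟨-j, by simpa using h1, fun e => h3 (neg_injective e), fun e => h4 (neg_injective e)⟩
      · intro z y hzy hg
        have hg' : g z = g y := neg_injective hg
        have e1 : - (- g z - 1) = g z + 1 := by
          have : ∀ i : Fin 3, - (- i - 1) = i + 1 := by decide
          exact this _
        change c z y = K (-(- g z - 1))
        rw [e1]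
        rcases hins z y hzy hg' with e | e
        · exact absurd ⟨z, y, hzy, rfl, hg'.symm, e⟩ (hor (g z)).2
        · exact e
      · intro i
        obtain ⟨z, -, -, g1, -⟩ := (hor (-i)).1
        exact ⟨z, by rw [g1, neg_neg]⟩

end Pool.Agent.R810.TC
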